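import Mathlib

set_option autoImplicit false

namespace Pool.Agent.Lib.HV

open Finset

/-- A finite field `L` of characteristic two with an automorphism `tau` of order dividing three and
a sign character `psi` that is invariant under squaring and under `tau`. -/
structure Setup (L : Type) [Field L] [Fintype L] [DecidableEq L] where
  tau : L →+* L
  tau3 : ∀ x, tau (tau (tau x)) = x
  psi : L → ℤ
  psi_add : ∀ x y, psi (x + y) = psi x * psi y
  psi_sq : ∀ x, psi (x ^ 2) = psi x
  psi_tau : ∀ x, psi (tau x) = psi x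
  psi_pm : ∀ x, psi x = 1 ∨ psi x = -1
  psi_ne : ∃ x, psi x = -1

variable {L : Type} [Field L] [Fintype L] [DecidableEq L] [CharP L 2]

/-- The fixed field, as a finset. -/
def Setup.K (S : Setup L) : Finset L := univ.filter (fun t => S.tau t = t)

/-- The kernel of the trace, as a finset. -/
def Setup.V (S : Setup L) : Finset L :=
  univ.filter (fun v => v + S.tau v + S.tau (S.tau v) = 0)

/-- The second symmetric function on the kernel of the trace. -/
def Setup.e2 (S : Setup L) (v : L) : L := v ^ 2 + v * S.tau v + (S.tau v) ^ 2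

/-- The norm on the kernel of the trace. -/
def Setup.N (S : Setup L) (v : L) : L := v * S.tau v * (v + S.tau v)

/-- The twisted cubic form on the kernel of the trace. -/
def Setup.P (S : Setup L) (v : L) : L := v ^ 3 + v ^ 2 * S.tau v + (S.tau v) ^ 3

variable (S : Setup L)

theorem mem_K {t : L} : t ∈ S.K ↔ S.tau t = t := by simp [Setup.K]

theorem mem_V {v : L} : v ∈ S.V ↔ v + S.tau v + S.tau (S.tau v) = 0 := by simp [Setup.V]

theorem tau_tau_of_mem_V {v : L} (hv : v ∈ S.V) : S.tau (S.tau v) = v + S.tau v := by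
  have h := (mem_V S).1 hv
  have h2 : v + S.tau v + S.tau (S.tau v) = 0 := h
  have := CharTwo.add_eq_zero.1 h2
  exact this.symm

theorem zero_mem_K : (0 : L) ∈ S.K := by simp [mem_K]
theorem one_mem_K : (1 : L) ∈ S.K := by simp [mem_K]
theorem add_mem_K {a b : L} (ha : a ∈ S.K) (hb : b ∈ S.K) : a + b ∈ S.K := by
  rw [mem_K] at *; rw [map_add, ha, hb]
theorem mul_mem_K {a b : L} (ha : a ∈ S.K) (hb : b ∈ S.K) : a * b ∈ S.K := by
  rw [mem_K] at *; rw [map_mul, ha, hb]
theorem pow_mem_K {a : L} (ha : a ∈ S.K) (n : ℕ) : a ^ n ∈ S.K := by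
  rw [mem_K] at *; rw [map_pow, ha]
theorem inv_mem_K {a : L} (ha : a ∈ S.K) : a⁻¹ ∈ S.K := by
  rw [mem_K] at *; rw [map_inv₀, ha]
theorem div_mem_K {a b : L} (ha : a ∈ S.K) (hb : b ∈ S.K) : a / b ∈ S.K := by
  rw [mem_K] at *; rw [map_div₀, ha, hb]

theorem psi_zero : S.psi 0 = 1 := by
  have h := S.psi_add 0 0
  rw [add_zero] at h
  rcases S.psi_pm 0 with h1 | h1
  · exact h1
  · rw [h1] at h; norm_num at h

theorem psi_mul_self (x : L) : S.psi x * S.psi x = 1 := by
  rcases S.psi_pm x with h | h <;> rw [h] <;> norm_num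

/-- `psi` of the trace to the fixed field. -/
theorem psi_tr (x : L) : S.psi (x + S.tau x + S.tau (S.tau x)) = S.psi x := by
  rw [S.psi_add, S.psi_add, S.psi_tau, S.psi_tau, S.psi_tau, psi_mul_self, one_mul]

theorem psi_eq_of_tr {x y : L}
    (h : x + S.tau x + S.tau (S.tau x) = y + S.tau y + S.tau (S.tau y)) : S.psi x = S.psi y := by
  rw [← psi_tr S x, h, psi_tr]

theorem psi_ne_K : ∃ t ∈ S.K, S.psi t = -1 := by
  obtain ⟨x, hx⟩ := S.psi_ne
  refine ⟨x + S.tau x + S.tau (S.tau x), ?_, by rw [psi_tr, hx]⟩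
  rw [mem_K]
  simp only [map_add, S.tau3]
  ring

theorem psi_sq_add (x : L) : S.psi (x ^ 2 + x) = 1 := by
  rw [S.psi_add, S.psi_sq, psi_mul_self]

theorem psi_eq_of_add {x y w : L} (h : x + y = w ^ 2 + w) : S.psi x = S.psi y := by
  have h1 : S.psi (x + y) = 1 := by rw [h, psi_sq_add]
  rw [S.psi_add] at h1
  have h2 := psi_mul_self S y
  rcases S.psi_pm x with hx | hx <;> rcases S.psi_pm y with hy | hy <;> rw [hx, hy] at h1 ⊢ <;>
    norm_num at h1

/-- Orthogonality on the fixed field. -/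
theorem sum_psi_K {c : L} (hc : c ∈ S.K) :
    ∑ t ∈ S.K, S.psi (c * t) = if c = 0 then (S.K.card : ℤ) else 0 := by
  by_cases h0 : c = 0
  · subst h0
    simp [psi_zero]
  · rw [if_neg h0]
    obtain ⟨t0, ht0, hpsi⟩ := psi_ne_K S
    have key : ∑ t ∈ S.K, S.psi (c * t) = ∑ t ∈ S.K, S.psi (c * (t + t0 / c)) := by
      refine (Finset.sum_bij (fun t _ => t + t0 / c) ?_ ?_ ?_ ?_).symm
      · intro t ht; exact add_mem_K S ht (div_mem_K S ht0 hc)
      · intro a _ b _ h; exact add_right_cancel h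
      · intro b hb
        refine ⟨b + t0 / c, add_mem_K S hb (div_mem_K S ht0 hc), ?_⟩
        rw [add_assoc, CharTwo.add_self_eq_zero, add_zero]
      · intro a _; rfl
    have h2 : ∀ t ∈ S.K, S.psi (c * (t + t0 / c)) = - S.psi (c * t) := by
      intro t _
      rw [mul_add, mul_div_cancel₀ _ h0, S.psi_add, hpsi]; ring
    rw [Finset.sum_congr rfl h2, Finset.sum_neg_distrib] at key
    linarith

/-- Squaring permutes the fixed field. -/
theorem sum_K_sq (g : L → ℤ) : ∑ t ∈ S.K, g (t ^ 2) = ∑ t ∈ S.K, g t := by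
  have hinj : Set.InjOn (fun t : L => t ^ 2) (S.K : Set L) := by
    intro a _ b _ h
    have h' : a ^ 2 = b ^ 2 := h
    have : (a + b) ^ 2 = 0 := by rw [CharTwo.add_sq, h', CharTwo.add_self_eq_zero]
    have := pow_eq_zero_iff (two_ne_zero) |>.1 this
    exact CharTwo.add_eq_zero.1 this
  have himg : S.K.image (fun t : L => t ^ 2) = S.K := by
    apply Finset.eq_of_subset_of_card_le
    · intro x hx
      obtain ⟨t, ht, rfl⟩ := Finset.mem_image.1 hx
      exact pow_mem_K S ht 2
    · rw [Finset.card_image_of_injOn hinj]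
  calc ∑ t ∈ S.K, g (t ^ 2) = ∑ x ∈ S.K.image (fun t : L => t ^ 2), g x :=
        (Finset.sum_image (fun a ha b hb h => hinj ha hb h)).symm
    _ = ∑ t ∈ S.K, g t := by rw [himg]

/-- Every element of the fixed field is a square in it. -/
theorem exists_sqrt {a : L} (ha : a ∈ S.K) : ∃ b ∈ S.K, b ^ 2 = a := by
  have hinj : Set.InjOn (fun t : L => t ^ 2) (S.K : Set L) := by
    intro a _ b _ h
    have h' : a ^ 2 = b ^ 2 := h
    have : (a + b) ^ 2 = 0 := by rw [CharTwo.add_sq, h', CharTwo.add_self_eq_zero]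
    have := pow_eq_zero_iff (two_ne_zero) |>.1 this
    exact CharTwo.add_eq_zero.1 this
  have himg : S.K.image (fun t : L => t ^ 2) = S.K := by
    apply Finset.eq_of_subset_of_card_le
    · intro x hx
      obtain ⟨t, ht, rfl⟩ := Finset.mem_image.1 hx
      exact pow_mem_K S ht 2
    · rw [Finset.card_image_of_injOn hinj]
  rw [← himg] at ha
  obtain ⟨t, ht, h⟩ := Finset.mem_image.1 ha
  exact ⟨t, ht, h⟩

theorem sum_K_split (g : L → ℤ) : ∑ t ∈ S.K, g t = g 0 + ∑ t ∈ S.K.erase 0, g t :=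
  (Finset.add_sum_erase _ _ (zero_mem_K S)).symm

theorem sum_psi_erase {c : L} (hc : c ∈ S.K) :
    ∑ t ∈ S.K.erase 0, S.psi (c * t) = (if c = 0 then (S.K.card : ℤ) else 0) - 1 := by
  have h := sum_K_split S (fun t => S.psi (c * t))
  rw [sum_psi_K S hc] at h
  rw [h, mul_zero, psi_zero]; ring

/-- Number of solutions of `w ^ 2 + w = d` in the fixed field. -/
theorem card_as {d : L} (hd : d ∈ S.K) :
    (((S.K.filter (fun w => w ^ 2 + w = d)).card : ℕ) : ℤ) = 1 + S.psi d := by
  have hr : (S.K.card : ℤ) ≠ 0 := by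
    have : S.K.Nonempty := ⟨0, zero_mem_K S⟩
    have := this.card_pos
    positivity
  have h1 : (S.K.card : ℤ) * (((S.K.filter (fun w => w ^ 2 + w = d)).card : ℕ) : ℤ)
      = ∑ w ∈ S.K, ∑ c ∈ S.K, S.psi (c * (w ^ 2 + w + d)) := by
    rw [Finset.card_filter]
    push_cast
    rw [Finset.mul_sum]
    refine Finset.sum_congr rfl (fun w hw => ?_)
    have hm : w ^ 2 + w + d ∈ S.K := add_mem_K S (add_mem_K S (pow_mem_K S hw 2) hw) hd
    have := sum_psi_K S hm
    have e : ∑ c ∈ S.K, S.psi (c * (w ^ 2 + w + d)) = ∑ c ∈ S.K, S.psi ((w ^ 2 + w + d) * c) :=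
      Finset.sum_congr rfl (fun c _ => by rw [mul_comm])
    rw [e, this]
    have : w ^ 2 + w + d = 0 ↔ w ^ 2 + w = d := CharTwo.add_eq_zero
    by_cases h : w ^ 2 + w = d
    · rw [if_pos h, if_pos (this.2 h)]; ring
    · rw [if_neg h, if_neg (fun h' => h (this.1 h'))]; ring
  rw [Finset.sum_comm] at h1
  have h2 : ∀ c ∈ S.K, ∑ w ∈ S.K, S.psi (c * (w ^ 2 + w + d))
      = S.psi (c * d) * (if c + c ^ 2 = 0 then (S.K.card : ℤ) else 0) := by
    intro c hc
    have e : ∀ w ∈ S.K, S.psi (c * (w ^ 2 + w + d)) = S.psi (c * d) * S.psi ((c + c ^ 2) * w ^ 2) := by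
      intro w _
      have e1 : c * (w ^ 2 + w + d) = c * d + (c * w ^ 2 + c * w) := by ring
      rw [e1, S.psi_add, S.psi_add]
      have e2 : (c + c ^ 2) * w ^ 2 = c * w ^ 2 + (c * w) ^ 2 := by ring
      rw [e2, S.psi_add, S.psi_sq]
    rw [Finset.sum_congr rfl e, ← Finset.mul_sum, sum_K_sq S (fun x => S.psi ((c + c ^ 2) * x)),
      sum_psi_K S (add_mem_K S hc (pow_mem_K S hc 2))]
  rw [Finset.sum_congr rfl h2] at h1
  have h3 : ∑ c ∈ S.K, S.psi (c * d) * (if c + c ^ 2 = 0 then (S.K.card : ℤ) else 0)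
      = (S.K.card : ℤ) * (1 + S.psi d) := by
    have hsub : ({0, 1} : Finset L) ⊆ S.K := by
      intro x hx
      simp only [Finset.mem_insert, Finset.mem_singleton] at hx
      rcases hx with rfl | rfl
      · exact zero_mem_K S
      · exact one_mem_K S
    rw [← Finset.sum_subset hsub]
    · rw [Finset.sum_pair (zero_ne_one)]
      simp only [zero_mul, one_mul, psi_zero]
      have e1 : (1 : L) + 1 ^ 2 = 0 := by rw [one_pow]; exact CharTwo.add_self_eq_zero 1
      rw [if_pos (by ring), if_pos e1]; ring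
    · intro x _ hx
      rw [if_neg, mul_zero]
      intro h
      apply hx
      have h' : x * (1 + x) = 0 := by rw [← h]; ring
      rcases mul_eq_zero.1 h' with h'' | h''
      · simp [h'']
      · have := CharTwo.add_eq_zero.1 h''
        simp [← this]
  rw [h3] at h1
  exact mul_left_cancel₀ hr h1

/-- Number of solutions of `X ^ 2 + z X + c = 0` in the fixed field, `z ≠ 0`. -/
theorem card_quad {z c : L} (hz : z ∈ S.K) (hc : c ∈ S.K) (hz0 : z ≠ 0) :
    (((S.K.filter (fun X => X ^ 2 + z * X + c = 0)).card : ℕ) : ℤ) = 1 + S.psi (c / z ^ 2) := by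
  rw [← card_as S (div_mem_K S hc (pow_mem_K S hz 2))]
  congr 1
  refine Finset.card_bij (fun X _ => X / z) ?_ ?_ ?_
  · intro X hX
    rw [Finset.mem_filter] at hX ⊢
    refine ⟨div_mem_K S hX.1 hz, ?_⟩
    have h := CharTwo.add_eq_zero.1 hX.2
    rw [← h]
    field_simp
  · intro a _ b _ h
    exact (div_left_inj' hz0).1 h
  · intro w hw
    rw [Finset.mem_filter] at hw
    refine ⟨w * z, ?_, by field_simp⟩
    rw [Finset.mem_filter]
    refine ⟨mul_mem_K S hw.1 hz, ?_⟩
    rw [CharTwo.add_eq_zero]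
    have := hw.2
    have h2 : c = (w ^ 2 + w) * z ^ 2 := by rw [this]; field_simp
    rw [h2]; ring

end Pool.Agent.Lib.HV
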