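import Pool.Agent.Lib.HV.Main

set_option autoImplicit false

namespace Pool.Agent.Lib.HV

open Finset

variable {L : Type} [Field L] [Fintype L] [Algebra (ZMod 2) L]

theorem exp_val (z : ZMod 2) :
    Complex.exp (2 * Real.pi * Complex.I * ((z.val : ℕ) : ℂ) / (2 : ℂ))
      = if z = 0 then 1 else -1 := by
  have h : ∀ z : ZMod 2, z = 0 ∨ z = 1 := by decide
  rcases h z with rfl | rfl
  · simp
  · have h1 : (ZMod.val (1 : ZMod 2)) = 1 := by decide
    rw [h1, if_neg (by decide)]
    have : 2 * (Real.pi : ℂ) * Complex.I * ((1 : ℕ) : ℂ) / 2 = Real.pi * Complex.I := by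
      push_cast; ring
    rw [this, Complex.exp_pi_mul_I]

theorem exp_trace (z : L) :
    Complex.exp (2 * Real.pi * Complex.I * (((Algebra.trace (ZMod 2) L z).val : ℕ) : ℂ) / (2 : ℂ))
      = ((sgn L z : ℤ) : ℂ) := by
  rw [exp_val, sgn]
  split_ifs <;> simp

theorem sum_exp (s : ℕ) (a : L) :
    ∑ x : L, Complex.exp (2 * Real.pi * Complex.I *
        (((Algebra.trace (ZMod 2) L (x ^ s - a * x)).val : ℕ) : ℂ) / (2 : ℂ))
      = ((∑ x : L, sgn L (x ^ s + a * x) : ℤ) : ℂ) := by
  have hchar : CharP L 2 := charP_of_injective_algebraMap (algebraMap (ZMod 2) L).injective 2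
  push_cast
  refine Finset.sum_congr rfl (fun x _ => ?_)
  rw [exp_trace, CharTwo.sub_eq_add]

/-- Elements of the subfield different from zero and one. -/
theorem exists_ne (m : ℕ) (hm : 2 ≤ m) (hL : Fintype.card L = 2 ^ (3 * m)) :
    ∃ a : L, a ≠ 0 ∧ a ≠ 1 ∧ a ^ 2 ^ m = a := by
  classical
  have hchar : CharP L 2 := charP_of_injective_algebraMap (algebraMap (ZMod 2) L).injective 2
  obtain ⟨hK, _⟩ := cards_one m (by omega) hL
  by_contra hcon
  have hsub : (fieldSetup L m (fix m hL)).K ⊆ {0, 1} := by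
    intro x hx
    have := (mem_K _).1 hx
    simp only [fieldSetup, iterateFrobenius_def] at this
    by_contra hx2
    simp only [Finset.mem_insert, Finset.mem_singleton, not_or] at hx2
    exact hcon ⟨x, hx2.1, hx2.2, this⟩
  have h1 := Finset.card_le_card hsub
  rw [hK] at h1
  have h2 : ({0, 1} : Finset L).card ≤ 2 := Finset.card_le_two
  have h3 : 2 ^ 2 ≤ 2 ^ m := Nat.pow_le_pow_right (by norm_num) hm
  omega

/-- Elements of the subfield different from zero and one, with trace zero. -/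
theorem exists_ne_tr (m : ℕ) (hm : 3 ≤ m) (hL : Fintype.card L = 2 ^ (3 * m)) :
    ∃ a : L, a ≠ 0 ∧ a ≠ 1 ∧ a ^ 2 ^ m = a ∧ sgn L a = 1 := by
  classical
  have hchar : CharP L 2 := charP_of_injective_algebraMap (algebraMap (ZMod 2) L).injective 2
  obtain ⟨hK, _⟩ := cards_one m (by omega) hL
  by_contra hcon
  set S := fieldSetup L m (fix m hL) with hS
  have h0 := sum_psi_K S (one_mem_K S)
  rw [if_neg one_ne_zero] at h0
  have hbad : ∀ x ∈ S.K, x ≠ 0 → x ≠ 1 → S.psi (1 * x) = -1 := by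
    intro x hx h1 h2
    have := (mem_K _).1 hx
    simp only [hS, fieldSetup, iterateFrobenius_def] at this
    rcases S.psi_pm (1 * x) with h3 | h3
    · exfalso
      rw [one_mul] at h3
      exact hcon ⟨x, h1, h2, this, h3⟩
    · exact h3
  have hone : (1 : L) ∈ S.K.erase 0 := Finset.mem_erase.2 ⟨one_ne_zero, one_mem_K S⟩
  rw [← Finset.add_sum_erase _ _ (zero_mem_K S), ← Finset.add_sum_erase _ _ hone] at h0
  have h4 : ∑ x ∈ (S.K.erase 0).erase 1, S.psi (1 * x) = -(((S.K.erase 0).erase 1).card : ℤ) := by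
    rw [Finset.sum_congr rfl (fun x hx => hbad x (Finset.mem_of_mem_erase (Finset.mem_of_mem_erase hx))
      (Finset.ne_of_mem_erase (Finset.mem_of_mem_erase hx)) (Finset.ne_of_mem_erase hx))]
    simp
  rw [h4, Finset.card_erase_of_mem hone, Finset.card_erase_of_mem (zero_mem_K S), hK] at h0
  have h3 : 2 ^ 3 ≤ 2 ^ m := Nat.pow_le_pow_right (by norm_num) hm
  rcases S.psi_pm (1 * 0) with h5 | h5 <;> rcases S.psi_pm (1 * 1) with h6 | h6 <;>
    rw [h5, h6] at h0 <;> omega

end Pool.Agent.Lib.HV
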