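import Pool.Agent.Lib.HV.Basic

set_option autoImplicit false

namespace Pool.Agent.Lib.HV

open Finset

variable {L : Type} [Field L] [Fintype L] [DecidableEq L] [CharP L 2] (S : Setup L)

/-- Number of vectors in the kernel of the trace with given invariants. -/
def Setup.I (S : Setup L) (A B : L) : ℤ :=
  (((S.V.filter (fun v => S.e2 v = A ∧ S.N v = B)).card : ℕ) : ℤ)

/-- Number of roots in the fixed field of `X ^ 3 + A X + B`. -/
def Setup.rho (S : Setup L) (A B : L) : ℤ :=
  (((S.K.filter (fun X => X ^ 3 + A * X + B = 0)).card : ℕ) : ℤ)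

theorem e2_mem {v : L} (hv : v ∈ S.V) : S.e2 v ∈ S.K := by
  rw [mem_K, Setup.e2]
  simp only [map_add, map_mul, map_pow]
  rw [tau_tau_of_mem_V S hv]
  linear_combination (norm := (ring_nf; reduce_mod_char!))

theorem N_mem {v : L} (hv : v ∈ S.V) : S.N v ∈ S.K := by
  rw [mem_K, Setup.N]
  simp only [map_add, map_mul]
  rw [tau_tau_of_mem_V S hv]
  linear_combination (norm := (ring_nf; reduce_mod_char!))

theorem P_mem {v : L} (hv : v ∈ S.V) : S.P v ∈ S.K := by
  rw [mem_K, Setup.P]
  simp only [map_add, map_mul, map_pow]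
  rw [tau_tau_of_mem_V S hv]
  linear_combination (norm := (ring_nf; reduce_mod_char!))

theorem root_self (v : L) : v ^ 3 + S.e2 v * v + S.N v = 0 := by
  rw [Setup.e2, Setup.N]
  linear_combination (norm := (ring_nf; reduce_mod_char!))

theorem zero_mem_V : (0 : L) ∈ S.V := by simp [mem_V]

theorem tau_mem_V {v : L} (hv : v ∈ S.V) : S.tau v ∈ S.V := by
  rw [mem_V] at *
  rw [S.tau3, ← hv]; ring

theorem V_inter_K {v : L} (hv : v ∈ S.V) (hk : v ∈ S.K) : v = 0 := by
  rw [mem_V] at hv; rw [mem_K] at hk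
  rw [hk, hk, CharTwo.add_self_eq_zero, zero_add] at hv
  exact hv

theorem N_ne {v : L} (hv : v ∈ S.V) (h0 : v ≠ 0) : S.N v ≠ 0 := by
  rw [Setup.N]
  intro h
  rcases mul_eq_zero.1 h with h1 | h1
  · rcases mul_eq_zero.1 h1 with h2 | h2
    · exact h0 h2
    · exact h0 ((map_eq_zero S.tau).1 h2)
  · have h2 := CharTwo.add_eq_zero.1 h1
    exact h0 (V_inter_K S hv ((mem_K S).2 h2.symm))

/-- Invariants determine the vector up to `tau`. -/
theorem eq_of_inv {v w : L} (hv : v ∈ S.V) (he : S.e2 w = S.e2 v) (hN : S.N w = S.N v) :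
    w = v ∨ w = S.tau v ∨ w = v + S.tau v := by
  have h1 := root_self S w
  rw [he, hN] at h1
  have h2 : (w + v) * (w + S.tau v) * (w + (v + S.tau v)) = 0 := by
    rw [← h1, Setup.e2, Setup.N]
    linear_combination (norm := (ring_nf; reduce_mod_char!))
  rcases mul_eq_zero.1 h2 with h3 | h3
  · rcases mul_eq_zero.1 h3 with h4 | h4
    · exact Or.inl (CharTwo.add_eq_zero.1 h4)
    · exact Or.inr (Or.inl (CharTwo.add_eq_zero.1 h4))
  · exact Or.inr (Or.inr (CharTwo.add_eq_zero.1 h3))

theorem sum_I (g : L → L → ℤ) :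
    ∑ A ∈ S.K, ∑ B ∈ S.K.erase 0, S.I A B * g A B
      = ∑ v ∈ S.V.erase 0, g (S.e2 v) (S.N v) := by
  have h1 : ∀ A ∈ S.K, ∀ B ∈ S.K.erase 0, S.I A B * g A B
      = ∑ v ∈ S.V.erase 0, if S.e2 v = A ∧ S.N v = B then g (S.e2 v) (S.N v) else 0 := by
    intro A hA B hB
    have hB0 : B ≠ 0 := Finset.ne_of_mem_erase hB
    have h2 : S.I A B = ∑ v ∈ S.V.erase 0, if S.e2 v = A ∧ S.N v = B then (1 : ℤ) else 0 := by
      rw [Setup.I, Finset.card_filter]
      push_cast
      rw [← Finset.add_sum_erase S.V _ (zero_mem_V S)]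
      have : ¬ (S.e2 0 = A ∧ S.N 0 = B) := by
        intro h
        apply hB0
        rw [← h.2]; simp [Setup.N]
      rw [if_neg this, zero_add]
    rw [h2, Finset.sum_mul]
    refine Finset.sum_congr rfl (fun v _ => ?_)
    by_cases h : S.e2 v = A ∧ S.N v = B
    · rw [if_pos h, if_pos h, h.1, h.2, one_mul]
    · rw [if_neg h, if_neg h, zero_mul]
  rw [Finset.sum_congr rfl (fun A hA => Finset.sum_congr rfl (fun B hB => h1 A hA B hB))]
  rw [Finset.sum_congr rfl (fun A _ => Finset.sum_comm), Finset.sum_comm]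
  refine Finset.sum_congr rfl (fun v hv => ?_)
  have hvV := Finset.mem_of_mem_erase hv
  have hv0 := Finset.ne_of_mem_erase hv
  rw [Finset.sum_eq_single_of_mem (S.e2 v) (e2_mem S hvV)]
  · rw [Finset.sum_eq_single_of_mem (S.N v) (Finset.mem_erase.2 ⟨N_ne S hvV hv0, N_mem S hvV⟩)]
    · rw [if_pos ⟨rfl, rfl⟩]
    · intro B _ hB; rw [if_neg]; rintro ⟨_, h⟩; exact hB h.symm
  · intro A _ hA
    refine Finset.sum_eq_zero (fun B _ => ?_)
    rw [if_neg]; rintro ⟨h, _⟩; exact hA h.symm

theorem sum_rho (g : L → L → ℤ) :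
    ∑ A ∈ S.K, ∑ B ∈ S.K.erase 0, S.rho A B * g A B
      = ∑ X ∈ S.K.erase 0, (∑ A ∈ S.K, g A (X ^ 3 + A * X) - g (X ^ 2) 0) := by
  have h1 : ∀ A ∈ S.K, ∀ B ∈ S.K.erase 0, S.rho A B * g A B
      = ∑ X ∈ S.K.erase 0, if B = X ^ 3 + A * X then g A B else 0 := by
    intro A hA B hB
    have hB0 : B ≠ 0 := Finset.ne_of_mem_erase hB
    have h2 : S.rho A B = ∑ X ∈ S.K.erase 0, if B = X ^ 3 + A * X then (1 : ℤ) else 0 := by
      rw [Setup.rho, Finset.card_filter]
      push_cast
      rw [← Finset.add_sum_erase S.K _ (zero_mem_K S)]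
      have : ¬ ((0 : L) ^ 3 + A * 0 + B = 0) := by
        intro h; apply hB0; rw [← h]; ring
      rw [if_neg this, zero_add]
      refine Finset.sum_congr rfl (fun X _ => ?_)
      have hiff : (X ^ 3 + A * X + B = 0) ↔ (B = X ^ 3 + A * X) := by
        rw [CharTwo.add_eq_zero]; exact eq_comm
      simp only [hiff]
    rw [h2, Finset.sum_mul]
    refine Finset.sum_congr rfl (fun v _ => ?_)
    split_ifs <;> ring
  rw [Finset.sum_congr rfl (fun A hA => Finset.sum_congr rfl (fun B hB => h1 A hA B hB))]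
  rw [Finset.sum_congr rfl (fun A _ => Finset.sum_comm), Finset.sum_comm]
  refine Finset.sum_congr rfl (fun X hX => ?_)
  have hXK := Finset.mem_of_mem_erase hX
  have hX0 := Finset.ne_of_mem_erase hX
  have h3 : ∀ A ∈ S.K, (∑ B ∈ S.K.erase 0, if B = X ^ 3 + A * X then g A B else 0)
      = g A (X ^ 3 + A * X) - (if A = X ^ 2 then g (X ^ 2) 0 else 0) := by
    intro A hA
    by_cases h : A = X ^ 2
    · subst h
      have e : X ^ 3 + X ^ 2 * X = 0 := by
        have : X ^ 2 * X = X ^ 3 := by ring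
        rw [this]; exact CharTwo.add_self_eq_zero _
      rw [if_pos rfl, e, sub_self]
      refine Finset.sum_eq_zero (fun B hB => ?_)
      rw [if_neg (Finset.ne_of_mem_erase hB)]
    · rw [if_neg h, sub_zero]
      have hne : X ^ 3 + A * X ≠ 0 := by
        intro h'
        apply h
        have h'' : X * (X ^ 2 + A) = 0 := by rw [← h']; ring
        rcases mul_eq_zero.1 h'' with h4 | h4
        · exact absurd h4 hX0
        · exact (CharTwo.add_eq_zero.1 h4).symm
      rw [Finset.sum_eq_single_of_mem (X ^ 3 + A * X)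
        (Finset.mem_erase.2 ⟨hne, add_mem_K S (pow_mem_K S hXK 3) (mul_mem_K S hA hXK)⟩)]
      · rw [if_pos rfl]
      · intro B _ hB; rw [if_neg hB]
  rw [Finset.sum_congr rfl h3, Finset.sum_sub_distrib]
  congr 1
  rw [Finset.sum_ite_eq' S.K (X ^ 2) (fun _ => g (X ^ 2) 0), if_pos (pow_mem_K S hXK 2)]

/-- The sum with the discriminant character. -/
theorem sum_eps {al be : L} (hal : al ∈ S.K) (hbe : be ∈ S.K) :
    ∑ A ∈ S.K, ∑ B ∈ S.K.erase 0, S.psi (A ^ 3 / B ^ 2) * S.psi (al * A + be * B)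
      = (S.K.card : ℤ) * (S.rho al be - 1) := by
  rw [Finset.sum_comm]
  have h1 : ∀ B ∈ S.K.erase 0, ∑ A ∈ S.K, S.psi (A ^ 3 / B ^ 2) * S.psi (al * A + be * B)
      = ∑ z ∈ S.K, S.psi ((z ^ 3 + al * z + be) * B) := by
    intro B hB
    have hB0 : B ≠ 0 := Finset.ne_of_mem_erase hB
    have hBK := Finset.mem_of_mem_erase hB
    refine Finset.sum_bij (fun A _ => A / B) ?_ ?_ ?_ ?_
    · intro A hA; exact div_mem_K S hA hBK
    · intro a _ b _ h; exact (div_left_inj' hB0).1 h
    · intro z hz; exact ⟨z * B, mul_mem_K S hz hBK, by field_simp⟩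
    · intro A _
      rw [← S.psi_add]
      congr 1
      field_simp
      ring
  rw [Finset.sum_congr rfl h1, Finset.sum_comm]
  have h2 : ∀ z ∈ S.K, ∑ B ∈ S.K.erase 0, S.psi ((z ^ 3 + al * z + be) * B)
      = (S.K.card : ℤ) * (if z ^ 3 + al * z + be = 0 then 1 else 0) - 1 := by
    intro z hz
    rw [sum_psi_erase S (add_mem_K S (add_mem_K S (pow_mem_K S hz 3) (mul_mem_K S hal hz)) hbe)]
    split_ifs <;> ring
  rw [Finset.sum_congr rfl h2, Finset.sum_sub_distrib, ← Finset.mul_sum]
  rw [Finset.sum_const, nsmul_eq_mul, mul_one, Setup.rho, Finset.card_filter]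
  push_cast
  ring

/-- Root case of the classification. -/
theorem cls_root {A B z : L} (hA : A ∈ S.K) (hB0 : B ≠ 0) (hz : z ∈ S.K)
    (hroot : z ^ 3 + A * z + B = 0) :
    S.I A B = 0 ∧ S.rho A B = 2 + S.psi 1 * S.psi (A ^ 3 / B ^ 2) := by
  have hz0 : z ≠ 0 := by
    rintro rfl
    apply hB0; rw [← hroot]; ring
  have hB : B = z ^ 3 + A * z := (CharTwo.add_eq_zero.1 hroot).symm
  have hAz : z ^ 2 + A ≠ 0 := by
    intro h
    apply hB0
    rw [hB]
    have : z ^ 3 + A * z = z * (z ^ 2 + A) := by ring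
    rw [this, h, mul_zero]
  constructor
  · rw [Setup.I]
    have : S.V.filter (fun v => S.e2 v = A ∧ S.N v = B) = ∅ := by
      rw [Finset.filter_eq_empty_iff]
      rintro v hv ⟨he, hN⟩
      have h3 : (z + v) * (z + S.tau v) * (z + (v + S.tau v)) = 0 := by
        rw [← hroot, ← he, ← hN, Setup.e2, Setup.N]
        linear_combination (norm := (ring_nf; reduce_mod_char!))
      have key : ∀ u ∈ S.V, z + u = 0 → False := by
        intro u hu h
        have h4 := CharTwo.add_eq_zero.1 h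
        exact hz0 (h4.trans (V_inter_K S hu (h4 ▸ hz)))
      have hv2 : v + S.tau v ∈ S.V := by
        have := tau_mem_V S (tau_mem_V S hv)
        rwa [tau_tau_of_mem_V S hv] at this
      rcases mul_eq_zero.1 h3 with h4 | h4
      · rcases mul_eq_zero.1 h4 with h5 | h5
        · exact key v hv h5
        · exact key _ (tau_mem_V S hv) h5
      · exact key _ hv2 h4
    rw [this]; simp
  · have hfil : S.K.filter (fun X => X ^ 3 + A * X + B = 0)
        = insert z (S.K.filter (fun X => X ^ 2 + z * X + (z ^ 2 + A) = 0)) := by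
      ext X
      simp only [Finset.mem_filter, Finset.mem_insert]
      have hfac : X ^ 3 + A * X + B = (X + z) * (X ^ 2 + z * X + (z ^ 2 + A)) := by
        rw [hB]
        linear_combination (norm := (ring_nf; reduce_mod_char!))
      rw [hfac, mul_eq_zero]
      constructor
      · rintro ⟨hX, h | h⟩
        · exact Or.inl (CharTwo.add_eq_zero.1 h)
        · exact Or.inr ⟨hX, h⟩
      · rintro (rfl | ⟨hX, h⟩)
        · exact ⟨hz, Or.inl (CharTwo.add_self_eq_zero _)⟩
        · exact ⟨hX, Or.inr h⟩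
    have hnot : z ∉ S.K.filter (fun X => X ^ 2 + z * X + (z ^ 2 + A) = 0) := by
      rw [Finset.mem_filter]
      rintro ⟨_, h⟩
      apply hAz
      rw [← h]
      linear_combination (norm := (ring_nf; reduce_mod_char!))
    rw [Setup.rho, hfil, Finset.card_insert_of_notMem hnot]
    push_cast
    rw [card_quad S hz (add_mem_K S (pow_mem_K S hz 2) hA) hz0]
    have h1 : S.psi ((z ^ 2 + A) / z ^ 2) = S.psi 1 * S.psi (A / z ^ 2) := by
      rw [← S.psi_add]; congr 1; field_simp
    have h2 : S.psi (A / z ^ 2) = S.psi (A ^ 3 / B ^ 2) := by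
      apply psi_eq_of_add S (w := A / (z ^ 2 + A))
      have e : B = z * (z ^ 2 + A) := by rw [hB]; ring
      rw [e]
      field_simp
      linear_combination (norm := (ring_nf; reduce_mod_char!))
    rw [h1, h2]; ring

/-- Vector case of the classification. -/
theorem cls_vec {v : L} (hv : v ∈ S.V) (h0 : v ≠ 0) :
    S.I (S.e2 v) (S.N v) = 3 ∧ S.rho (S.e2 v) (S.N v) = 0 ∧
      S.psi 1 * S.psi (S.e2 v ^ 3 / S.N v ^ 2) = 1 := by
  have hN0 := N_ne S hv h0
  have hv2 : v + S.tau v ∈ S.V := by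
    have := tau_mem_V S (tau_mem_V S hv)
    rwa [tau_tau_of_mem_V S hv] at this
  have hne1 : v ≠ S.tau v := by
    intro h
    exact h0 (V_inter_K S hv ((mem_K S).2 h.symm))
  have hne2 : v ≠ v + S.tau v := by
    intro h
    have : S.tau v = 0 := by
      have h' : v + 0 = v + S.tau v := by rw [add_zero]; exact h
      exact (add_left_cancel h').symm
    exact h0 ((map_eq_zero S.tau).1 this)
  have hne3 : S.tau v ≠ v + S.tau v := by
    intro h
    have h' : 0 + S.tau v = v + S.tau v := by rw [zero_add]; exact h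
    exact h0 (add_right_cancel h').symm
  refine ⟨?_, ?_, ?_⟩
  · rw [Setup.I]
    have : S.V.filter (fun w => S.e2 w = S.e2 v ∧ S.N w = S.N v) = {v, S.tau v, v + S.tau v} := by
      ext w
      simp only [Finset.mem_filter, Finset.mem_insert, Finset.mem_singleton]
      constructor
      · rintro ⟨_, he, hN⟩; exact eq_of_inv S hv he hN
      · rintro (rfl | rfl | rfl)
        · exact ⟨hv, rfl, rfl⟩
        · refine ⟨tau_mem_V S hv, ?_, ?_⟩
          · rw [Setup.e2, Setup.e2, tau_tau_of_mem_V S hv]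
            linear_combination (norm := (ring_nf; reduce_mod_char!))
          · rw [Setup.N, Setup.N, tau_tau_of_mem_V S hv]
            linear_combination (norm := (ring_nf; reduce_mod_char!))
        · refine ⟨hv2, ?_, ?_⟩
          · rw [Setup.e2, Setup.e2, map_add, tau_tau_of_mem_V S hv]
            linear_combination (norm := (ring_nf; reduce_mod_char!))
          · rw [Setup.N, Setup.N, map_add, tau_tau_of_mem_V S hv]
            linear_combination (norm := (ring_nf; reduce_mod_char!))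
    rw [this, Finset.card_insert_of_notMem, Finset.card_insert_of_notMem, Finset.card_singleton]
    · norm_num
    · simpa using hne3
    · simp only [Finset.mem_insert, Finset.mem_singleton, not_or]
      exact ⟨hne1, hne2⟩
  · rw [Setup.rho]
    have : S.K.filter (fun X => X ^ 3 + S.e2 v * X + S.N v = 0) = ∅ := by
      rw [Finset.filter_eq_empty_iff]
      intro z hz hroot
      have := (cls_root S (e2_mem S hv) hN0 hz hroot).1
      rw [Setup.I, Nat.cast_eq_zero, Finset.card_eq_zero, Finset.filter_eq_empty_iff] at this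
      exact this hv ⟨rfl, rfl⟩
    rw [this]; simp
  · rw [← S.psi_add]
    have hp := psi_sq_add S (S.P v / S.N v)
    rw [← hp]
    congr 1
    rw [div_pow]
    field_simp
    rw [Setup.P, Setup.N, Setup.e2]
    linear_combination (norm := (ring_nf; reduce_mod_char!))

/-- The classification of cubics `X ^ 3 + A X + B` over the fixed field. -/
theorem cls (hV : (S.V.card : ℤ) = (S.K.card : ℤ) ^ 2) {A B : L} (hA : A ∈ S.K)
    (hB : B ∈ S.K.erase 0) :
    S.I A B = 2 - S.rho A B + S.psi 1 * S.psi (A ^ 3 / B ^ 2) := by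
  have hle : ∀ A ∈ S.K, ∀ B ∈ S.K.erase 0,
      S.I A B + S.rho A B - 2 - S.psi 1 * S.psi (A ^ 3 / B ^ 2) ≤ 0 := by
    intro A hA B hB
    have hB0 := Finset.ne_of_mem_erase hB
    by_cases h1 : ∃ z ∈ S.K, z ^ 3 + A * z + B = 0
    · obtain ⟨z, hz, hroot⟩ := h1
      obtain ⟨h2, h3⟩ := cls_root S hA hB0 hz hroot
      rw [h2, h3]; linarith
    · by_cases h2 : ∃ v ∈ S.V, S.e2 v = A ∧ S.N v = B
      · obtain ⟨v, hv, rfl, rfl⟩ := h2
        have hv0 : v ≠ 0 := by
          rintro rfl; apply hB0; simp [Setup.N]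
        obtain ⟨h3, h4, h5⟩ := cls_vec S hv hv0
        rw [h3, h4, h5]; norm_num
      · have h3 : S.I A B = 0 := by
          rw [Setup.I, Nat.cast_eq_zero, Finset.card_eq_zero, Finset.filter_eq_empty_iff]
          intro v hv h; exact h2 ⟨v, hv, h⟩
        have h4 : S.rho A B = 0 := by
          rw [Setup.rho, Nat.cast_eq_zero, Finset.card_eq_zero, Finset.filter_eq_empty_iff]
          intro z hz h; exact h1 ⟨z, hz, h⟩
        rw [h3, h4]
        rcases S.psi_pm 1 with h5 | h5 <;> rcases S.psi_pm (A ^ 3 / B ^ 2) with h6 | h6 <;>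
          rw [h5, h6] <;> norm_num
  have hcard : ((S.K.erase 0).card : ℤ) = (S.K.card : ℤ) - 1 := by
    rw [Finset.card_erase_of_mem (zero_mem_K S)]
    have : 1 ≤ S.K.card := Finset.card_pos.2 ⟨0, zero_mem_K S⟩
    push_cast [this]; ring
  have hcardV : ((S.V.erase 0).card : ℤ) = (S.V.card : ℤ) - 1 := by
    rw [Finset.card_erase_of_mem (zero_mem_V S)]
    have : 1 ≤ S.V.card := Finset.card_pos.2 ⟨0, zero_mem_V S⟩
    push_cast [this]; ring
  have hsum : ∑ A ∈ S.K, ∑ B ∈ S.K.erase 0,
      (S.I A B + S.rho A B - 2 - S.psi 1 * S.psi (A ^ 3 / B ^ 2)) = 0 := by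
    have h1 := sum_I S (fun _ _ => 1)
    have h2 := sum_rho S (fun _ _ => 1)
    have h3 := sum_eps S (zero_mem_K S) (zero_mem_K S)
    simp only [mul_one, Finset.sum_const, nsmul_eq_mul] at h1 h2
    simp only [zero_mul, add_zero, psi_zero, mul_one] at h3
    have h4 : S.rho 0 0 = 1 := by
      rw [Setup.rho]
      have : S.K.filter (fun X => X ^ 3 + 0 * X + 0 = 0) = {0} := by
        ext X
        simp only [Finset.mem_filter, Finset.mem_singleton, zero_mul, add_zero]
        constructor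
        · rintro ⟨_, h⟩; exact pow_eq_zero_iff (three_ne_zero) |>.1 h
        · rintro rfl; exact ⟨zero_mem_K S, by simp⟩
      rw [this]; simp
    simp only [Finset.sum_add_distrib, Finset.sum_sub_distrib, ← Finset.mul_sum,
      Finset.sum_const, nsmul_eq_mul]
    rw [h1, h2, h3, h4, hcard, hcardV, hV]
    ring
  have h0 : ∀ A ∈ S.K, ∑ B ∈ S.K.erase 0,
      (S.I A B + S.rho A B - 2 - S.psi 1 * S.psi (A ^ 3 / B ^ 2)) = 0 :=
    (Finset.sum_eq_zero_iff_of_nonpos (fun A hA => Finset.sum_nonpos (fun B hB => hle A hA B hB))).1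
      hsum
  have h5 := (Finset.sum_eq_zero_iff_of_nonpos (fun B hB => hle A hA B hB)).1 (h0 A hA) B hB
  linarith

end Pool.Agent.Lib.HV
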