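import Pool.Agent.Lib.HV.Cubic

set_option autoImplicit false

namespace Pool.Agent.Lib.HV

open Finset

variable {L : Type} [Field L] [Fintype L] [DecidableEq L] [CharP L 2] (S : Setup L)

/-- The character sum over the kernel of the trace. -/
def Setup.H (S : Setup L) (al be : L) : ℤ := ∑ v ∈ S.V, S.psi (al * S.e2 v + be * S.N v)

theorem H_eq (hV : (S.V.card : ℤ) = (S.K.card : ℤ) ^ 2) {al be : L} (hal : al ∈ S.K)
    (hbe : be ∈ S.K) :
    S.H al be = 1 + 2 * ((∑ A ∈ S.K, S.psi (al * A)) * ∑ B ∈ S.K.erase 0, S.psi (be * B))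
      - (∑ X ∈ S.K.erase 0,
          (S.psi (be * X ^ 3) * (if al + be * X = 0 then (S.K.card : ℤ) else 0) - S.psi (al * X ^ 2)))
      + S.psi 1 * ((S.K.card : ℤ) * (S.rho al be - 1)) := by
  have h1 : S.H al be = 1 + ∑ A ∈ S.K, ∑ B ∈ S.K.erase 0, S.I A B * S.psi (al * A + be * B) := by
    rw [sum_I S (fun A B => S.psi (al * A + be * B)), Setup.H,
      ← Finset.add_sum_erase S.V _ (zero_mem_V S)]
    simp [Setup.e2, Setup.N, psi_zero]
  have h2 : ∀ A ∈ S.K, ∀ B ∈ S.K.erase 0, S.I A B * S.psi (al * A + be * B)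
      = 2 * (S.psi (al * A) * S.psi (be * B)) - S.rho A B * S.psi (al * A + be * B)
        + S.psi 1 * (S.psi (A ^ 3 / B ^ 2) * S.psi (al * A + be * B)) := by
    intro A hA B hB
    rw [cls S hV hA hB, S.psi_add (al * A) (be * B)]; ring
  have h3 : ∀ X ∈ S.K.erase 0, (∑ A ∈ S.K, S.psi (al * A + be * (X ^ 3 + A * X))
        - S.psi (al * X ^ 2 + be * 0))
      = (S.psi (be * X ^ 3) * (if al + be * X = 0 then (S.K.card : ℤ) else 0)
        - S.psi (al * X ^ 2)) := by
    intro X hX
    have hXK := Finset.mem_of_mem_erase hX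
    rw [mul_zero, add_zero]
    congr 1
    rw [← sum_psi_K S (add_mem_K S hal (mul_mem_K S hbe hXK)), Finset.mul_sum]
    refine Finset.sum_congr rfl (fun A _ => ?_)
    rw [← S.psi_add]; congr 1; ring
  have h4 : ∑ A ∈ S.K, ∑ B ∈ S.K.erase 0, S.I A B * S.psi (al * A + be * B)
      = ∑ A ∈ S.K, ∑ B ∈ S.K.erase 0, 2 * (S.psi (al * A) * S.psi (be * B))
        - ∑ A ∈ S.K, ∑ B ∈ S.K.erase 0, S.rho A B * S.psi (al * A + be * B)
        + S.psi 1 * ∑ A ∈ S.K, ∑ B ∈ S.K.erase 0,
            (S.psi (A ^ 3 / B ^ 2) * S.psi (al * A + be * B)) := by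
    rw [Finset.mul_sum, ← Finset.sum_sub_distrib, ← Finset.sum_add_distrib]
    refine Finset.sum_congr rfl (fun A hA => ?_)
    rw [Finset.mul_sum, ← Finset.sum_sub_distrib, ← Finset.sum_add_distrib]
    exact Finset.sum_congr rfl (fun B hB => h2 A hA B hB)
  have h5 : ∑ A ∈ S.K, ∑ B ∈ S.K.erase 0, 2 * (S.psi (al * A) * S.psi (be * B))
      = 2 * ((∑ A ∈ S.K, S.psi (al * A)) * ∑ B ∈ S.K.erase 0, S.psi (be * B)) := by
    rw [Finset.sum_mul, Finset.mul_sum]
    refine Finset.sum_congr rfl (fun A _ => ?_)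
    rw [Finset.mul_sum, Finset.mul_sum]
  rw [h1, h4, h5, sum_eps S hal hbe, sum_rho S (fun A B => S.psi (al * A + be * B)),
    Finset.sum_congr rfl h3]
  ring

theorem sum_erase_sq (g : L → ℤ) : ∑ t ∈ S.K.erase 0, g (t ^ 2) = ∑ t ∈ S.K.erase 0, g t := by
  have h1 := sum_K_split S (fun t => g (t ^ 2))
  have h2 := sum_K_split S g
  have h3 := sum_K_sq S g
  simp only [ne_eq, OfNat.ofNat_ne_zero, not_false_eq_true, zero_pow] at h1
  linarith

theorem H_ne (hV : (S.V.card : ℤ) = (S.K.card : ℤ) ^ 2) {al be : L} (hal : al ∈ S.K)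
    (hbe : be ∈ S.K.erase 0) :
    S.H al be = S.psi 1 * (S.K.card : ℤ) * (1 - S.I al be) := by
  have hbe0 := Finset.ne_of_mem_erase hbe
  have hbeK := Finset.mem_of_mem_erase hbe
  rw [H_eq S hV hal hbeK, cls S hV hal hbe, sum_psi_K S hal, sum_psi_erase S hbeK, if_neg hbe0,
    Finset.sum_sub_distrib, sum_erase_sq S (fun x => S.psi (al * x)), sum_psi_erase S hal]
  by_cases h0 : al = 0
  · have h1 : ∑ X ∈ S.K.erase 0,
        S.psi (be * X ^ 3) * (if al + be * X = 0 then (S.K.card : ℤ) else 0) = 0 := by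
      refine Finset.sum_eq_zero (fun X hX => ?_)
      rw [if_neg, mul_zero]
      rw [h0, zero_add]
      exact mul_ne_zero hbe0 (Finset.ne_of_mem_erase hX)
    rw [h1, if_pos h0, h0]
    have h2 : S.psi ((0 : L) ^ 3 / be ^ 2) = 1 := by
      rw [zero_pow three_ne_zero, zero_div, psi_zero]
    have h3 := psi_mul_self S 1
    rw [h2]
    linear_combination (S.K.card : ℤ) * h3
  · have h1 : ∑ X ∈ S.K.erase 0,
        S.psi (be * X ^ 3) * (if al + be * X = 0 then (S.K.card : ℤ) else 0)
        = S.psi (al ^ 3 / be ^ 2) * (S.K.card : ℤ) := by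
      have hm : al / be ∈ S.K.erase 0 :=
        Finset.mem_erase.2 ⟨div_ne_zero h0 hbe0, div_mem_K S hal hbeK⟩
      rw [Finset.sum_eq_single_of_mem _ hm]
      · rw [if_pos]
        · congr 2
          field_simp
        · rw [mul_div_cancel₀ _ hbe0]; exact CharTwo.add_self_eq_zero _
      · intro X _ hX
        rw [if_neg, mul_zero]
        intro h
        apply hX
        rw [CharTwo.add_eq_zero] at h
        rw [h, mul_div_cancel_left₀ _ hbe0]
    rw [h1, if_neg h0]
    have h3 := psi_mul_self S 1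
    linear_combination (S.K.card : ℤ) * S.psi (al ^ 3 / be ^ 2) * h3

theorem H_zero (hV : (S.V.card : ℤ) = (S.K.card : ℤ) ^ 2) {al : L} (hal : al ∈ S.K)
    (h0 : al ≠ 0) : S.H al 0 = S.psi 1 * (S.K.card : ℤ) := by
  rw [H_eq S hV hal (zero_mem_K S), sum_psi_K S hal, if_neg h0,
    Finset.sum_sub_distrib, sum_erase_sq S (fun x => S.psi (al * x)), sum_psi_erase S hal,
    if_neg h0]
  have h1 : ∑ X ∈ S.K.erase 0,
        S.psi (0 * X ^ 3) * (if al + 0 * X = 0 then (S.K.card : ℤ) else 0) = 0 := by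
    refine Finset.sum_eq_zero (fun X _ => ?_)
    rw [if_neg, mul_zero]
    rw [zero_mul, add_zero]; exact h0
  have h2 : S.rho al 0 = 2 := by
    obtain ⟨b, hb, hb2⟩ := exists_sqrt S hal
    have hb0 : b ≠ 0 := by rintro rfl; apply h0; rw [← hb2]; simp
    rw [Setup.rho]
    have : S.K.filter (fun X => X ^ 3 + al * X + 0 = 0) = {0, b} := by
      ext X
      simp only [Finset.mem_filter, Finset.mem_insert, Finset.mem_singleton, add_zero]
      constructor
      · rintro ⟨_, h⟩
        have h' : X * ((X + b) * (X + b)) = 0 := by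
          rw [← h, ← hb2]
          linear_combination (norm := (ring_nf; reduce_mod_char!))
        rcases mul_eq_zero.1 h' with h3 | h3
        · exact Or.inl h3
        · exact Or.inr (CharTwo.add_eq_zero.1 (mul_self_eq_zero.1 h3))
      · rintro (rfl | rfl)
        · exact ⟨zero_mem_K S, by simp⟩
        · refine ⟨hb, ?_⟩
          rw [← hb2]
          linear_combination (norm := (ring_nf; reduce_mod_char!))
    rw [this, Finset.card_pair hb0.symm]; norm_num
  rw [h1, h2]; ring

/-- The linear change of variable over the field with eight elements. -/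
theorem sum_P {b : L} (hb : b ^ 3 = b ^ 2 + 1) (htau : S.tau b = b ∨ S.tau b = b ^ 2 + b + 1)
    (g : L → L → ℤ) :
    ∑ v ∈ S.V, g (S.e2 v) (S.P v) = ∑ v ∈ S.V, g (S.e2 v) (S.N v) := by
  have hb' : b ^ 3 + b ^ 2 + 1 = 0 := by
    rw [hb]
    linear_combination (norm := (ring_nf; reduce_mod_char!))
  have hb0 : b ≠ 0 := by
    rintro rfl
    simp at hb
  set f : L → L := fun v => (b + 1) * v + (b ^ 2 + b) * S.tau v with hf
  have hf2 : ∀ v ∈ S.V, S.tau (f v) = (S.tau b + 1) * S.tau v
      + ((S.tau b) ^ 2 + S.tau b) * (v + S.tau v) := by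
    intro v hv
    simp only [hf, map_add, map_mul, map_pow, map_one]
    rw [tau_tau_of_mem_V S hv]
  have htt : S.tau b = b ^ 2 + b + 1 → S.tau (S.tau b) = b ^ 2 := by
    intro h
    rw [h]
    simp only [map_add, map_pow, map_one]
    rw [h]
    linear_combination (norm := (ring_nf; reduce_mod_char!)) (b + 1) * hb'
  have hf3 : ∀ v ∈ S.V, S.tau (S.tau (f v)) = (S.tau (S.tau b) + 1) * (v + S.tau v)
      + ((S.tau (S.tau b)) ^ 2 + S.tau (S.tau b)) * v := by
    intro v hv
    rw [hf2 v hv]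
    simp only [map_add, map_mul, map_pow, map_one]
    rw [tau_tau_of_mem_V S hv]
    linear_combination (norm := (ring_nf; reduce_mod_char!))
  have hmap : ∀ v ∈ S.V, f v ∈ S.V := by
    intro v hv
    rw [mem_V, hf3 v hv, hf2 v hv]
    rcases htau with h | h
    · rw [h, h]
      simp only [hf]
      linear_combination (norm := (ring_nf; reduce_mod_char!))
    · rw [htt h, h]
      simp only [hf]
      linear_combination (norm := (ring_nf; reduce_mod_char!)) (b * S.tau v + S.tau v) * hb'
  have he : ∀ v ∈ S.V, S.e2 (f v) = S.e2 v := by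
    intro v hv
    rw [Setup.e2, Setup.e2, hf2 v hv]
    rcases htau with h | h
    · rw [h]
      simp only [hf]
      linear_combination (norm := (ring_nf; reduce_mod_char!))
        (b * v ^ 2 + b * v * S.tau v + b * S.tau v ^ 2) * hb'
    · rw [h]
      simp only [hf]
      linear_combination (norm := (ring_nf; reduce_mod_char!))
        (b ^ 5 * v ^ 2 + b ^ 5 * S.tau v ^ 2 + b ^ 4 * v ^ 2 + b ^ 4 * S.tau v ^ 2 + b ^ 3 * v ^ 2
          + b ^ 3 * v * S.tau v + b ^ 2 * v ^ 2 + b ^ 2 * v * S.tau v + b * v ^ 2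
          + v * S.tau v + S.tau v ^ 2) * hb'
  have hN : ∀ v ∈ S.V, S.N (f v) = S.P v := by
    intro v hv
    rw [Setup.N, Setup.P, hf2 v hv]
    rcases htau with h | h
    · rw [h]
      simp only [hf]
      linear_combination (norm := (ring_nf; reduce_mod_char!))
        (b ^ 3 * v ^ 2 * S.tau v + b ^ 3 * v * S.tau v ^ 2 + b ^ 2 * v ^ 3
          + b ^ 2 * v * S.tau v ^ 2 + b ^ 2 * S.tau v ^ 3 + b * v ^ 3 + b * v * S.tau v ^ 2
          + b * S.tau v ^ 3 + v ^ 3 + v * S.tau v ^ 2 + S.tau v ^ 3) * hb'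
    · rw [h]
      simp only [hf]
      linear_combination (norm := (ring_nf; reduce_mod_char!))
        (b ^ 7 * v ^ 2 * S.tau v + b ^ 7 * S.tau v ^ 3 + b ^ 6 * v ^ 3 + b ^ 6 * v * S.tau v ^ 2
          + b ^ 5 * v * S.tau v ^ 2 + b ^ 5 * S.tau v ^ 3 + b ^ 4 * v ^ 2 * S.tau v
          + b ^ 4 * v * S.tau v ^ 2 + b ^ 3 * v * S.tau v ^ 2 + b ^ 3 * S.tau v ^ 3
          + b ^ 2 * S.tau v ^ 3 + b * v ^ 3 + v ^ 3 + v ^ 2 * S.tau v + S.tau v ^ 3) * hb'
  have hker : ∀ v ∈ S.V, f v = 0 → v = 0 := by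
    intro v hv h
    have h1 : v = b * S.tau v := by
      have : b ^ 2 * f v = 0 := by rw [h, mul_zero]
      simp only [hf] at this
      linear_combination (norm := (ring_nf; reduce_mod_char!)) this - (b * S.tau v + v) * hb'
    have h2 : S.tau v = S.tau b * (v + S.tau v) := by
      have := congrArg S.tau h1
      rw [map_mul, tau_tau_of_mem_V S hv] at this
      exact this
    have h3 : (1 + S.tau b * (b + 1)) * S.tau v = 0 := by
      linear_combination (norm := (ring_nf; reduce_mod_char!)) h2 + S.tau b * h1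
    rcases mul_eq_zero.1 h3 with h4 | h4
    · exfalso
      rcases htau with h | h
      · rw [h] at h4
        apply hb0
        have : b ^ 2 = 0 := by
          linear_combination (norm := (ring_nf; reduce_mod_char!)) hb' + (b + 1) * h4
        exact pow_eq_zero_iff two_ne_zero |>.1 this
      · rw [h] at h4
        have h5 : b ^ 2 + 1 = 0 := by
          linear_combination (norm := (ring_nf; reduce_mod_char!)) hb' + h4
        have h6 : b ^ 3 = 0 := by
          rw [hb, h5]
        exact hb0 (pow_eq_zero_iff three_ne_zero |>.1 h6)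
    · exact (map_eq_zero S.tau).1 h4
  have hinj : Set.InjOn f (S.V : Set L) := by
    intro x hx y hy hxy
    have hx' : x ∈ S.V := hx
    have hy' : y ∈ S.V := hy
    have hsum : x + y ∈ S.V := by
      rw [mem_V] at hx' hy' ⊢
      simp only [map_add]
      linear_combination hx' + hy'
    have h0 : f (x + y) = 0 := by
      have : f (x + y) = f x + f y := by
        simp only [hf, map_add]; ring
      rw [this, hxy]; exact CharTwo.add_self_eq_zero _
    exact CharTwo.add_eq_zero.1 (hker _ hsum h0)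
  have himg : S.V.image f = S.V := by
    apply Finset.eq_of_subset_of_card_le
    · intro x hx
      obtain ⟨t, ht, rfl⟩ := Finset.mem_image.1 hx
      exact hmap t ht
    · rw [Finset.card_image_of_injOn hinj]
  calc ∑ v ∈ S.V, g (S.e2 v) (S.P v) = ∑ v ∈ S.V, g (S.e2 (f v)) (S.N (f v)) := by
        refine Finset.sum_congr rfl (fun v hv => ?_)
        rw [he v hv, hN v hv]
    _ = ∑ x ∈ S.V.image f, g (S.e2 x) (S.N x) :=
        (Finset.sum_image (f := fun x => g (S.e2 x) (S.N x))
          (fun a ha b hb h => hinj ha hb h)).symm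
    _ = _ := by rw [himg]

/-- Decomposition of the field as kernel of the trace plus fixed field. -/
theorem sum_decomp (F : L → ℤ) : ∑ y : L, F y = ∑ v ∈ S.V, ∑ t ∈ S.K, F (v + t) := by
  rw [← Finset.sum_product']
  symm
  refine Finset.sum_bij (fun p _ => p.1 + p.2) ?_ ?_ ?_ ?_
  · intro p _; exact Finset.mem_univ _
  · rintro ⟨v, t⟩ h1 ⟨v', t'⟩ h2 h
    rw [Finset.mem_product] at h1 h2
    have h3 : v + v' = t + t' := by
      have h' : v + t = v' + t' := h
      linear_combination (norm := (ring_nf; reduce_mod_char!)) h'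
    have h4 : v + v' ∈ S.V := by
      have a1 := (mem_V S).1 h1.1
      have a2 := (mem_V S).1 h2.1
      rw [mem_V]
      simp only [map_add]
      linear_combination a1 + a2
    have h5 : v + v' ∈ S.K := by rw [h3]; exact add_mem_K S h1.2 h2.2
    have h6 := V_inter_K S h4 h5
    have h7 : t + t' = 0 := by rw [← h3, h6]
    rw [CharTwo.add_eq_zero.1 h6, CharTwo.add_eq_zero.1 h7]
  · intro y _
    refine ⟨(S.tau y + S.tau (S.tau y), y + S.tau y + S.tau (S.tau y)), ?_, ?_⟩
    · rw [Finset.mem_product]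
      constructor
      · rw [mem_V]
        simp only [map_add, S.tau3]
        linear_combination (norm := (ring_nf; reduce_mod_char!))
      · rw [mem_K]
        simp only [map_add, S.tau3]
        ring
    · show S.tau y + S.tau (S.tau y) + (y + S.tau y + S.tau (S.tau y)) = y
      linear_combination (norm := (ring_nf; reduce_mod_char!))
  · intro p _; rfl

end Pool.Agent.Lib.HV
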