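import Pool.Agent.Lib.HV.Sums

set_option autoImplicit false

namespace Pool.Agent.Lib.HV

open Finset

/-- The sign of the absolute trace. -/
noncomputable def sgn (L : Type) [Field L] [Algebra (ZMod 2) L] (x : L) : ℤ :=
  if Algebra.trace (ZMod 2) L x = 0 then 1 else -1

section

variable (L : Type) [Field L] [Fintype L] [DecidableEq L] [Algebra (ZMod 2) L]

theorem charTwo_of_algebra : CharP L 2 := charP_of_injective_algebraMap
  (algebraMap (ZMod 2) L).injective 2

theorem trace_sq (x : L) : Algebra.trace (ZMod 2) L (x ^ 2) = Algebra.trace (ZMod 2) L x := by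
  have h := Algebra.trace_eq_of_algEquiv
    (FiniteField.frobeniusAlgEquivOfAlgebraic (ZMod 2) L) x
  have e : (FiniteField.frobeniusAlgEquivOfAlgebraic (ZMod 2) L) x = x ^ 2 := by
    have := congrFun (FiniteField.coe_frobeniusAlgEquivOfAlgebraic (ZMod 2) L) x
    simpa [ZMod.card] using this
  rw [e] at h
  exact h

theorem trace_pow_two_pow (x : L) (e : ℕ) :
    Algebra.trace (ZMod 2) L (x ^ 2 ^ e) = Algebra.trace (ZMod 2) L x := by
  induction e with
  | zero => simp
  | succ n ih => rw [pow_succ, pow_mul, trace_sq, ih]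

theorem sgn_add (x y : L) : sgn L (x + y) = sgn L x * sgn L y := by
  have h : ∀ z : ZMod 2, z = 0 ∨ z = 1 := by decide
  simp only [sgn, map_add]
  rcases h (Algebra.trace (ZMod 2) L x) with h1 | h1 <;>
    rcases h (Algebra.trace (ZMod 2) L y) with h2 | h2 <;> rw [h1, h2]
  · simp
  · simp
  · simp
  · have : (1 : ZMod 2) + 1 = 0 := by decide
    rw [if_pos this]; simp

theorem sgn_ne : ∃ x : L, sgn L x = -1 := by
  have htr := (traceForm_nondegenerate (ZMod 2) L).1 1
  simp_rw [Algebra.traceForm_apply, one_mul] at htr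
  by_contra hcon
  refine one_ne_zero (htr (fun x => ?_))
  by_contra hx
  exact hcon ⟨x, by rw [sgn, if_neg hx]⟩

theorem sgn_pm (x : L) : sgn L x = 1 ∨ sgn L x = -1 := by
  rw [sgn]; split_ifs <;> simp

/-- The setup attached to a finite field and a Frobenius power of order dividing three. -/
noncomputable def fieldSetup [CharP L 2] (e : ℕ) (h : ∀ x : L, x ^ 2 ^ (3 * e) = x) : Setup L where
  tau := iterateFrobenius L 2 e
  tau3 := by
    intro x
    rw [iterateFrobenius_def, iterateFrobenius_def, iterateFrobenius_def, ← pow_mul, ← pow_mul,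
      ← pow_add, ← pow_add]
    have : e + (e + e) = 3 * e := by ring
    rw [this]; exact h x
  psi := sgn L
  psi_add := sgn_add L
  psi_sq := by intro x; simp only [sgn, trace_sq]
  psi_tau := by intro x; rw [iterateFrobenius_def]; simp only [sgn, trace_pow_two_pow]
  psi_pm := sgn_pm L
  psi_ne := sgn_ne L

end

theorem card_K_V {L : Type} [Field L] [Fintype L] [DecidableEq L] [CharP L 2] (S : Setup L)
    (m : ℕ) (hm : 1 ≤ m) (hL : Fintype.card L = 2 ^ (3 * m))
    (hK : ∀ x ∈ S.K, x ^ 2 ^ m = x)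
    (hV : ∀ v ∈ S.V, v + v ^ 2 ^ m + v ^ 2 ^ (2 * m) = 0) :
    S.K.card = 2 ^ m ∧ S.V.card = 2 ^ (2 * m) := by
  have hlt : (1 : ℕ) < 2 ^ m := Nat.one_lt_two_pow (by omega)
  have h1 : S.K.card ≤ 2 ^ m := by
    set p : Polynomial L := Polynomial.X ^ 2 ^ m + Polynomial.X with hp
    have hdeg : (Polynomial.X : Polynomial L).degree < ((2 ^ m : ℕ) : WithBot ℕ) := by
      rw [Polynomial.degree_X]; exact_mod_cast hlt
    have hmon : p.Monic := Polynomial.monic_X_pow_add hdeg
    have hnat : p.natDegree ≤ 2 ^ m := by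
      refine Polynomial.natDegree_add_le_of_degree_le ?_ ?_
      · rw [Polynomial.natDegree_X_pow]
      · rw [Polynomial.natDegree_X]; exact hlt.le
    have hsub : S.K ⊆ p.roots.toFinset := by
      intro x hx
      rw [Multiset.mem_toFinset, Polynomial.mem_roots hmon.ne_zero, Polynomial.IsRoot.def]
      simp only [hp, Polynomial.eval_add, Polynomial.eval_pow, Polynomial.eval_X]
      rw [hK x hx]; exact CharTwo.add_self_eq_zero x
    calc S.K.card ≤ p.roots.toFinset.card := Finset.card_le_card hsub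
      _ ≤ Multiset.card p.roots := Multiset.toFinset_card_le _
      _ ≤ p.natDegree := Polynomial.card_roots' p
      _ ≤ 2 ^ m := hnat
  have h2 : S.V.card ≤ 2 ^ (2 * m) := by
    have hlt2 : 2 ^ m < 2 ^ (2 * m) := Nat.pow_lt_pow_right (by norm_num) (by omega)
    set p : Polynomial L := Polynomial.X ^ 2 ^ (2 * m) + (Polynomial.X + Polynomial.X ^ 2 ^ m) with hp
    have hdeg : (Polynomial.X + Polynomial.X ^ 2 ^ m : Polynomial L).degree
        < ((2 ^ (2 * m) : ℕ) : WithBot ℕ) := by
      refine lt_of_le_of_lt (Polynomial.degree_add_le _ _) ?_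
      rw [Polynomial.degree_X, Polynomial.degree_X_pow, max_lt_iff]
      constructor
      · exact_mod_cast (hlt.trans hlt2)
      · exact_mod_cast hlt2
    have hmon : p.Monic := Polynomial.monic_X_pow_add hdeg
    have hnat : p.natDegree ≤ 2 ^ (2 * m) := by
      refine Polynomial.natDegree_add_le_of_degree_le ?_ ?_
      · rw [Polynomial.natDegree_X_pow]
      · refine Polynomial.natDegree_add_le_of_degree_le ?_ ?_
        · rw [Polynomial.natDegree_X]; exact (hlt.trans hlt2).le
        · rw [Polynomial.natDegree_X_pow]; exact hlt2.le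
    have hsub : S.V ⊆ p.roots.toFinset := by
      intro x hx
      rw [Multiset.mem_toFinset, Polynomial.mem_roots hmon.ne_zero, Polynomial.IsRoot.def]
      simp only [hp, Polynomial.eval_add, Polynomial.eval_pow, Polynomial.eval_X]
      rw [← hV x hx]; ring
    calc S.V.card ≤ p.roots.toFinset.card := Finset.card_le_card hsub
      _ ≤ Multiset.card p.roots := Multiset.toFinset_card_le _
      _ ≤ p.natDegree := Polynomial.card_roots' p
      _ ≤ 2 ^ (2 * m) := hnat
  have h3 : S.V.card * S.K.card = 2 ^ (2 * m) * 2 ^ m := by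
    have h4 := sum_decomp S (fun _ => 1)
    simp only [Finset.sum_const, nsmul_eq_mul, mul_one, Finset.card_univ] at h4
    have h5 : S.V.card * S.K.card = Fintype.card L := by exact_mod_cast h4.symm
    rw [h5, hL, ← pow_add]; congr 1; ring
  have hp1 : 0 < 2 ^ m := by positivity
  have hp2 : 0 < 2 ^ (2 * m) := by positivity
  constructor
  · by_contra hne
    have hlt' : S.K.card < 2 ^ m := lt_of_le_of_ne h1 hne
    have : S.V.card * S.K.card < 2 ^ (2 * m) * 2 ^ m :=
      Nat.mul_lt_mul_of_le_of_lt h2 hlt' hp2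
    omega
  · by_contra hne
    have hlt' : S.V.card < 2 ^ (2 * m) := lt_of_le_of_ne h2 hne
    have : S.V.card * S.K.card < 2 ^ (2 * m) * 2 ^ m :=
      Nat.mul_lt_mul_of_lt_of_le hlt' h1 hp1
    omega

/-- The primitive seventh root of unity with `b ^ 3 = b ^ 2 + 1`. -/
theorem exists_b {L : Type} [Field L] [Fintype L] [CharP L 2] (m : ℕ) (hm : 1 ≤ m)
    (hL : Fintype.card L = 2 ^ (3 * m)) : ∃ b : L, b ^ 3 = b ^ 2 + 1 := by
  classical
  have h7 : 7 ∣ Fintype.card Lˣ := by
    rw [Fintype.card_units, hL, pow_mul]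
    have : (2 ^ 3 : ℕ) ^ m - 1 = 8 ^ m - 1 ^ m := by norm_num
    rw [this]
    exact Nat.sub_dvd_pow_sub_pow 8 1 m
  have : Fact (Nat.Prime 7) := ⟨by norm_num⟩
  obtain ⟨u, hu⟩ := exists_prime_orderOf_dvd_card 7 h7
  have hu7 : (u : L) ^ 7 = 1 := by
    have := pow_orderOf_eq_one u
    rw [hu] at this
    have h := congrArg Units.val this
    simpa using h
  have hu1 : (u : L) ≠ 1 := by
    intro h
    have h' : u = 1 := Units.ext h
    rw [h', orderOf_one] at hu
    norm_num at hu
  have hu0 : (u : L) ≠ 0 := u.ne_zero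
  have hfac : ((u : L) + 1) * (((u : L) ^ 3 + u ^ 2 + 1) * ((u : L) ^ 3 + u + 1)) = 0 := by
    linear_combination (norm := (ring_nf; reduce_mod_char!)) hu7
  rcases mul_eq_zero.1 hfac with h | h
  · exact absurd (CharTwo.add_eq_zero.1 h) hu1
  · rcases mul_eq_zero.1 h with h1 | h1
    · refine ⟨u, ?_⟩
      linear_combination (norm := (ring_nf; reduce_mod_char!)) h1
    · refine ⟨(u : L)⁻¹, ?_⟩
      have h2 : (u : L) ^ 3 = u + 1 := by
        linear_combination (norm := (ring_nf; reduce_mod_char!)) h1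
      field_simp
      linear_combination (norm := (ring_nf; reduce_mod_char!)) h2

end Pool.Agent.Lib.HV
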