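import Pool.Agent.Lib.HV.Inst

set_option autoImplicit false

namespace Pool.Agent.Lib.HV

open Finset

section

variable {L : Type} [Field L] [Fintype L] [DecidableEq L] [CharP L 2]

theorem tau_b {b : L} (hb : b ^ 3 = b ^ 2 + 1) (e : ℕ) (he : e % 3 ≠ 1) :
    b ^ 2 ^ e = b ∨ b ^ 2 ^ e = b ^ 2 + b + 1 := by
  have h4 : b ^ 4 = b ^ 2 + b + 1 := by
    linear_combination (b + 1) * hb
  have h8 : b ^ 8 = b := by
    have : b ^ 8 = (b ^ 2 + b + 1) ^ 2 := by rw [← h4]; ring
    rw [this]
    linear_combination (norm := (ring_nf; reduce_mod_char!)) h4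
  have h8k : ∀ k : ℕ, b ^ 2 ^ (3 * k) = b := by
    intro k
    induction k with
    | zero => simp
    | succ n ih =>
      have : 2 ^ (3 * (n + 1)) = 2 ^ (3 * n) * 8 := by rw [mul_add, pow_add]; norm_num
      rw [this, pow_mul, ih, h8]
  have hdm := Nat.div_add_mod e 3
  have hlt := Nat.mod_lt e (show 0 < 3 by norm_num)
  have hcases : e % 3 = 0 ∨ e % 3 = 2 := by omega
  rcases hcases with h | h
  · left
    have : e = 3 * (e / 3) := by omega
    rw [this, h8k]
  · right
    have : e = 3 * (e / 3) + 2 := by omega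
    rw [this, pow_add, pow_mul, h8k]
    norm_num
    exact h4

end

section

variable {L : Type} [Field L] [Fintype L] [DecidableEq L] [Algebra (ZMod 2) L]

theorem sgn_one (m : ℕ) (hL : Fintype.card L = 2 ^ (3 * m)) : sgn L (1 : L) = (-1) ^ m := by
  have hfin : Module.finrank (ZMod 2) L = 3 * m := by
    have h := Module.card_eq_pow_finrank (K := ZMod 2) (V := L)
    rw [ZMod.card, hL] at h
    exact (Nat.pow_right_injective (le_refl 2) h).symm
  have htr : Algebra.trace (ZMod 2) L (1 : L) = ((3 * m : ℕ) : ZMod 2) := by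
    have h := Algebra.trace_algebraMap (R := ZMod 2) (S := L) 1
    rw [map_one, hfin, nsmul_eq_mul, mul_one] at h
    exact h
  rw [sgn, htr]
  have h2 : (((3 * m : ℕ) : ZMod 2) = 0) ↔ 2 ∣ 3 * m := ZMod.natCast_eq_zero_iff _ _
  rcases Nat.even_or_odd m with h | h
  · rw [if_pos, Even.neg_one_pow h]
    rw [h2]; obtain ⟨k, hk⟩ := h; exact ⟨3 * k, by omega⟩
  · rw [if_neg, Odd.neg_one_pow h]
    rw [h2]; obtain ⟨k, hk⟩ := h; omega

theorem fix (m : ℕ) (hL : Fintype.card L = 2 ^ (3 * m)) (x : L) : x ^ 2 ^ (3 * m) = x := by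
  rw [← hL]; exact FiniteField.pow_card x

theorem fix2 (m : ℕ) (hL : Fintype.card L = 2 ^ (3 * m)) (x : L) : x ^ 2 ^ (3 * (2 * m)) = x := by
  have : 2 ^ (3 * (2 * m)) = 2 ^ (3 * m) * 2 ^ (3 * m) := by rw [← pow_add]; congr 1; ring
  rw [this, pow_mul, fix m hL, fix m hL]

theorem four_m (m : ℕ) (hL : Fintype.card L = 2 ^ (3 * m)) (x : L) :
    (x ^ 2 ^ (2 * m)) ^ 2 ^ (2 * m) = x ^ 2 ^ m := by
  rw [← pow_mul, ← pow_add]
  have : 2 * m + 2 * m = 3 * m + m := by ring
  rw [this, pow_add, pow_mul, fix m hL]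

theorem pow_m_m (m : ℕ) (x : L) : (x ^ 2 ^ m) ^ 2 ^ m = x ^ 2 ^ (2 * m) := by
  rw [← pow_mul, ← pow_add]; congr 2; ring

theorem cards_one [CharP L 2] (m : ℕ) (hm : 1 ≤ m) (hL : Fintype.card L = 2 ^ (3 * m)) :
    (fieldSetup L m (fix m hL)).K.card = 2 ^ m ∧ (fieldSetup L m (fix m hL)).V.card = 2 ^ (2 * m) := by
  apply card_K_V _ m hm hL
  · intro x hx
    have := (mem_K _).1 hx
    simpa [fieldSetup, iterateFrobenius_def] using this
  · intro v hv
    have := (mem_V _).1 hv
    simp only [fieldSetup, iterateFrobenius_def] at this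
    rwa [pow_m_m] at this

theorem cards_two [CharP L 2] (m : ℕ) (hm : 1 ≤ m) (hL : Fintype.card L = 2 ^ (3 * m)) :
    (fieldSetup L (2 * m) (fix2 m hL)).K.card = 2 ^ m ∧
      (fieldSetup L (2 * m) (fix2 m hL)).V.card = 2 ^ (2 * m) := by
  apply card_K_V _ m hm hL
  · intro x hx
    have := (mem_K _).1 hx
    simp only [fieldSetup, iterateFrobenius_def] at this
    have h2 := four_m m hL x
    rw [this, this] at h2
    exact h2.symm
  · intro v hv
    have := (mem_V _).1 hv
    simp only [fieldSetup, iterateFrobenius_def] at this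
    rw [four_m m hL] at this
    rw [← this]; ring

theorem eight_mod (k : ℕ) : 8 ^ k % 7 = 1 := by
  rw [Nat.pow_mod]; norm_num

theorem seven_dvd (m : ℕ) (hm : 1 ≤ m) : 7 ∣ 2 ^ (3 * m) - 1 := by
  rw [pow_mul]
  have : (2 ^ 3 : ℕ) ^ m - 1 = 8 ^ m - 1 ^ m := by norm_num
  rw [this]
  exact Nat.sub_dvd_pow_sub_pow 8 1 m

/-- The sum for the first family. -/
theorem main_A [CharP L 2] (m : ℕ) (hm : 1 ≤ m) (hL : Fintype.card L = 2 ^ (3 * m)) (s : ℕ)
    (hs : s = 2 ^ m + 3 ∨ s = 2 ^ (2 * m) + 3) (hcop : Nat.Coprime s (Fintype.card L - 1))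
    (a : L) (ha : a ^ 2 ^ m = a) :
    ∑ x : L, sgn L (x ^ s + a * x) = if a = 1 then (-1) ^ m * 2 ^ (2 * m) else 0 := by
  obtain ⟨b, hb⟩ := exists_b m hm hL
  have h7 := seven_dvd m hm
  have hnot7 : ¬ 7 ∣ s := by
    intro h
    rw [hL] at hcop
    have := Nat.dvd_gcd h h7
    rw [hcop] at this
    omega
  have hdm := Nat.div_add_mod m 3
  rcases hs with rfl | rfl
  · -- `e = 2 m`
    have he : (2 * m) % 3 ≠ 1 := by
      intro h
      apply hnot7
      have hm3 : m % 3 = 2 := by omega
      have : 2 ^ m = 8 ^ (m / 3) * 4 := by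
        have e1 : m = 3 * (m / 3) + 2 := by omega
        conv_lhs => rw [e1, pow_add, pow_mul]
        norm_num
      rw [this]
      have := eight_mod (m / 3)
      omega
    obtain ⟨hK, hV⟩ := cards_two m hm hL
    have h := sum_A (fieldSetup L (2 * m) (fix2 m hL)) (by rw [hK, hV]; push_cast; ring)
      hb (by simpa [fieldSetup, iterateFrobenius_def] using tau_b hb (2 * m) he) (a := a)
      (by
        rw [mem_K]
        simp only [fieldSetup, iterateFrobenius_def]
        rw [← pow_m_m, ha, ha])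
    rw [hK] at h
    have e : ∀ y : L, (fieldSetup L (2 * m) (fix2 m hL)).psi
        (y ^ 3 * (fieldSetup L (2 * m) (fix2 m hL)).tau ((fieldSetup L (2 * m) (fix2 m hL)).tau y)
          + a * y) = sgn L (y ^ (2 ^ m + 3) + a * y) := by
      intro y
      simp only [fieldSetup, iterateFrobenius_def]
      rw [four_m m hL, pow_add y (2 ^ m) 3, mul_comm (y ^ 3)]
    rw [Finset.sum_congr rfl (fun y _ => e y)] at h
    rw [h]
    have h1 : (fieldSetup L (2 * m) (fix2 m hL)).psi 1 = (-1) ^ m := sgn_one m hL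
    rw [h1]
    push_cast
    split_ifs <;> ring
  · have he : m % 3 ≠ 1 := by
      intro h
      apply hnot7
      have : 2 ^ (2 * m) = 8 ^ (2 * (m / 3)) * 4 := by
        have e1 : 2 * m = 3 * (2 * (m / 3)) + 2 := by omega
        conv_lhs => rw [e1, pow_add, pow_mul]
        norm_num
      rw [this]
      have := eight_mod (2 * (m / 3))
      omega
    obtain ⟨hK, hV⟩ := cards_one m hm hL
    have h := sum_A (fieldSetup L m (fix m hL)) (by rw [hK, hV]; push_cast; ring)
      hb (by simpa [fieldSetup, iterateFrobenius_def] using tau_b hb m he) (a := a)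
      (by
        rw [mem_K]
        simp only [fieldSetup, iterateFrobenius_def]
        exact ha)
    rw [hK] at h
    have e : ∀ y : L, (fieldSetup L m (fix m hL)).psi
        (y ^ 3 * (fieldSetup L m (fix m hL)).tau ((fieldSetup L m (fix m hL)).tau y)
          + a * y) = sgn L (y ^ (2 ^ (2 * m) + 3) + a * y) := by
      intro y
      simp only [fieldSetup, iterateFrobenius_def]
      rw [pow_m_m, pow_add y (2 ^ (2 * m)) 3, mul_comm (y ^ 3)]
    rw [Finset.sum_congr rfl (fun y _ => e y)] at h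
    rw [h]
    have h1 : (fieldSetup L m (fix m hL)).psi 1 = (-1) ^ m := sgn_one m hL
    rw [h1]
    push_cast
    split_ifs <;> ring

/-- Change of variable `x = tau y * tau (tau y)`. -/
theorem sum_change [CharP L 2] (S : Setup L) (s : ℕ) (hs0 : s ≠ 0)
    (hs : ∀ x : L, x ^ s * x = S.tau (S.tau x) * (S.tau x) ^ 2) (a : L) :
    ∑ x : L, S.psi (x ^ s + a * x)
      = ∑ y : L, S.psi (y ^ 3 * S.tau (S.tau y) + a * (S.tau y * S.tau (S.tau y))) := by
  have hinj : Function.Injective (fun y : L => S.tau y * S.tau (S.tau y)) := by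
    have h1 : ∀ u : L, S.tau u * S.tau (S.tau u) = 1 → u = 1 := by
      intro u hu
      have h2 : u * S.tau u = 1 := by
        have := congrArg (fun z => S.tau (S.tau z)) hu
        simp only [map_mul, S.tau3, map_one] at this
        exact this
      have hu0 : u ≠ 0 := by rintro rfl; simp at h2
      have ht : S.tau u = u⁻¹ := eq_inv_of_mul_eq_one_right h2
      have ht2 : S.tau (S.tau u) = u := by rw [ht, map_inv₀, ht, inv_inv]
      have ht3 : S.tau (S.tau (S.tau u)) = u⁻¹ := by rw [ht2, ht]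
      rw [S.tau3] at ht3
      have h3 : u ^ 2 = 1 := by
        rw [pow_two]
        nth_rewrite 1 [ht3]
        exact inv_mul_cancel₀ hu0
      have h4 : (u + 1) ^ 2 = 0 := by
        linear_combination (norm := (ring_nf; reduce_mod_char!)) h3
      exact CharTwo.add_eq_zero.1 (pow_eq_zero_iff two_ne_zero |>.1 h4)
    intro y z h
    simp only at h
    by_cases hz : z = 0
    · subst hz
      simp only [map_zero, mul_zero, mul_eq_zero, map_eq_zero, or_self] at h
      exact h
    · have hy : y ≠ 0 := by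
        rintro rfl
        simp only [map_zero, mul_zero] at h
        have := h.symm
        simp only [mul_eq_zero, map_eq_zero, or_self] at this
        exact hz this
      have h5 : S.tau (y / z) * S.tau (S.tau (y / z)) = 1 := by
        simp only [map_div₀]
        rw [div_mul_div_comm, h, div_self]
        exact mul_ne_zero ((map_ne_zero S.tau).2 hz)
          ((map_ne_zero S.tau).2 ((map_ne_zero S.tau).2 hz))
      have h6 := h1 _ h5
      rwa [div_eq_one_iff_eq hz] at h6
  have hbij : Function.Bijective (fun y : L => S.tau y * S.tau (S.tau y)) :=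
    Finite.injective_iff_bijective.1 hinj
  rw [← hbij.sum_comp (fun x => S.psi (x ^ s + a * x))]
  refine Finset.sum_congr rfl (fun y _ => ?_)
  congr 2
  by_cases hy : y = 0
  · subst hy
    simp only [map_zero, mul_zero, ne_eq, OfNat.ofNat_ne_zero, not_false_eq_true, zero_pow]
    exact zero_pow hs0
  · have hx0 : S.tau y * S.tau (S.tau y) ≠ 0 :=
      mul_ne_zero ((map_ne_zero S.tau).2 hy) ((map_ne_zero S.tau).2 ((map_ne_zero S.tau).2 hy))
    have h := hs (S.tau y * S.tau (S.tau y))
    simp only [map_mul, S.tau3] at h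
    apply mul_right_cancel₀ hx0
    rw [h]; ring

/-- The sum for the second family. -/
theorem main_B [CharP L 2] (m : ℕ) (hm : 1 ≤ m) (hL : Fintype.card L = 2 ^ (3 * m)) (s : ℕ)
    (hs : s + 1 = 2 ^ (2 * m) + 2 ^ (m + 1) ∨ s + 1 = 2 ^ (2 * m + 1) + 2 ^ m)
    (hcop : Nat.Coprime s (Fintype.card L - 1))
    (a : L) (ha : a ^ 2 ^ m = a) (ha1 : a ≠ 1) :
    ∑ x : L, sgn L (x ^ s + a * x) = (-1) ^ m * 2 ^ m * (1 - sgn L a)
      * ∑ g ∈ univ.filter (fun g : L => g ^ 2 ^ m = g ∧ g ≠ 0), sgn L (g + (1 + a) ^ 3 / g) := by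
  obtain ⟨b, hb⟩ := exists_b m hm hL
  have h7 := seven_dvd m hm
  have hnot7 : ¬ 7 ∣ s := by
    intro h
    rw [hL] at hcop
    have := Nat.dvd_gcd h h7
    rw [hcop] at this
    omega
  have hpow : 2 ^ (m + 1) = 2 * 2 ^ m := by rw [pow_succ]; ring
  have hpow2 : 2 ^ (2 * m + 1) = 2 * 2 ^ (2 * m) := by rw [pow_succ]; ring
  have hbig : 2 ≤ 2 ^ m := by
    calc 2 = 2 ^ 1 := by norm_num
      _ ≤ 2 ^ m := Nat.pow_le_pow_right (by norm_num) hm
  have hdm := Nat.div_add_mod m 3
  rcases hs with hs | hs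
  · have hs0 : s ≠ 0 := by
      rintro rfl
      omega
    have he : m % 3 ≠ 1 := by
      intro h
      apply hnot7
      have e2 : 2 ^ (2 * m) = 8 ^ (2 * (m / 3)) * 4 := by
        have e1 : 2 * m = 3 * (2 * (m / 3)) + 2 := by omega
        conv_lhs => rw [e1, pow_add, pow_mul]
        norm_num
      have e3 : 2 ^ m = 8 ^ (m / 3) * 2 := by
        have e1 : m = 3 * (m / 3) + 1 := by omega
        conv_lhs => rw [e1, pow_add, pow_mul]
        norm_num
      have := eight_mod (2 * (m / 3))
      have := eight_mod (m / 3)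
      rw [hpow, e2, e3] at hs
      omega
    obtain ⟨hK, hV⟩ := cards_one m hm hL
    have haK : a ∈ (fieldSetup L m (fix m hL)).K := by
      rw [mem_K]
      simp only [fieldSetup, iterateFrobenius_def]
      exact ha
    have h := sum_B (fieldSetup L m (fix m hL)) (by rw [hK, hV]; push_cast; ring)
      hb (by simpa [fieldSetup, iterateFrobenius_def] using tau_b hb m he) haK ha1
    rw [hK] at h
    have hch := sum_change (fieldSetup L m (fix m hL)) s hs0 (by
      intro x
      simp only [fieldSetup, iterateFrobenius_def]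
      rw [pow_m_m, ← pow_mul, ← pow_succ, hs, pow_add, hpow, mul_comm 2 (2 ^ m)]) a
    rw [h] at hch
    have h1 : (fieldSetup L m (fix m hL)).psi 1 = (-1) ^ m := sgn_one m hL
    have h2 : (fieldSetup L m (fix m hL)).K.erase 0
        = univ.filter (fun g : L => g ^ 2 ^ m = g ∧ g ≠ 0) := by
      ext g
      rw [Finset.mem_erase, mem_K]
      simp only [fieldSetup, iterateFrobenius_def, Finset.mem_filter, Finset.mem_univ, true_and]
      exact and_comm
    rw [Setup.Kl, h2, h1] at hch
    push_cast at hch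
    exact hch
  · have hs0 : s ≠ 0 := by
      rintro rfl
      omega
    have he : (2 * m) % 3 ≠ 1 := by
      intro h
      apply hnot7
      have hm3 : m % 3 = 2 := by omega
      have e2 : 2 ^ (2 * m) = 8 ^ (2 * (m / 3) + 1) * 2 := by
        have e1 : 2 * m = 3 * (2 * (m / 3) + 1) + 1 := by omega
        conv_lhs => rw [e1, pow_add, pow_mul]
        norm_num
      have e3 : 2 ^ m = 8 ^ (m / 3) * 4 := by
        have e1 : m = 3 * (m / 3) + 2 := by omega
        conv_lhs => rw [e1, pow_add, pow_mul]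
        norm_num
      have := eight_mod (2 * (m / 3) + 1)
      have := eight_mod (m / 3)
      rw [hpow2, e2, e3] at hs
      omega
    obtain ⟨hK, hV⟩ := cards_two m hm hL
    have haK : a ∈ (fieldSetup L (2 * m) (fix2 m hL)).K := by
      rw [mem_K]
      simp only [fieldSetup, iterateFrobenius_def]
      rw [← pow_m_m, ha, ha]
    have h := sum_B (fieldSetup L (2 * m) (fix2 m hL)) (by rw [hK, hV]; push_cast; ring)
      hb (by simpa [fieldSetup, iterateFrobenius_def] using tau_b hb (2 * m) he) haK ha1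
    rw [hK] at h
    have hch := sum_change (fieldSetup L (2 * m) (fix2 m hL)) s hs0 (by
      intro x
      simp only [fieldSetup, iterateFrobenius_def]
      rw [four_m m hL, ← pow_mul, ← pow_succ, hs, pow_add, hpow2, mul_comm 2 (2 ^ (2 * m)),
        mul_comm (x ^ 2 ^ m)]) a
    rw [h] at hch
    have h1 : (fieldSetup L (2 * m) (fix2 m hL)).psi 1 = (-1) ^ m := sgn_one m hL
    have h2 : (fieldSetup L (2 * m) (fix2 m hL)).K.erase 0
        = univ.filter (fun g : L => g ^ 2 ^ m = g ∧ g ≠ 0) := by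
      ext g
      rw [Finset.mem_erase, mem_K]
      simp only [fieldSetup, iterateFrobenius_def, Finset.mem_filter, Finset.mem_univ, true_and]
      constructor
      · rintro ⟨h0, hg⟩
        refine ⟨?_, h0⟩
        have h3 := four_m m hL g
        rw [hg, hg] at h3
        exact h3.symm
      · rintro ⟨hg, h0⟩
        refine ⟨h0, ?_⟩
        rw [← pow_m_m, hg, hg]
    rw [Setup.Kl, h2, h1] at hch
    push_cast at hch
    exact hch

end

end Pool.Agent.Lib.HV
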