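import Pool.Agent.Lib.HV.Eval

set_option autoImplicit false

namespace Pool.Agent.Lib.HV

open Finset

variable {L : Type} [Field L] [Fintype L] [DecidableEq L] [CharP L 2] (S : Setup L)

/-- The Kloosterman sum over the fixed field. -/
def Setup.Kl (S : Setup L) (c : L) : ℤ := ∑ g ∈ S.K.erase 0, S.psi (g + c / g)

theorem psi_A {a : L} (ha : a ∈ S.K) {v t : L} (hv : v ∈ S.V) (ht : t ∈ S.K) :
    S.psi ((v + t) ^ 3 * S.tau (S.tau (v + t)) + a * (v + t))
      = S.psi ((1 + a) * t) * S.psi ((1 + t ^ 2) * S.e2 v + t * S.P v) := by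
  have hta := (mem_K S).1 ha
  have htt := (mem_K S).1 ht
  have h2 := tau_tau_of_mem_V S hv
  have he := e2_mem S hv
  have hP := P_mem S hv
  have h1 : S.psi ((v + t) ^ 3 * S.tau (S.tau (v + t)) + a * (v + t))
      = S.psi (S.e2 v ^ 2 + t * S.P v + t ^ 2 * S.e2 v + t ^ 4 + a * t) := by
    apply psi_eq_of_tr
    have h3 : S.tau (S.e2 v) = S.e2 v := (mem_K S).1 he
    have h4 : S.tau (S.P v) = S.P v := (mem_K S).1 hP
    simp only [map_add, map_mul, map_pow, h3, h4, hta, htt, h2]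
    simp only [Setup.e2, Setup.P]
    linear_combination (norm := (ring_nf; reduce_mod_char!))
  rw [h1]
  have e1 : (1 + a) * t = t + a * t := by ring
  have e2 : (1 + t ^ 2) * S.e2 v + t * S.P v = S.e2 v + t * S.P v + t ^ 2 * S.e2 v := by ring
  have e3 : t ^ 4 = (t ^ 2) ^ 2 := by ring
  rw [e1, e2, e3]
  simp only [S.psi_add, S.psi_sq]
  ring

theorem psi_B {a : L} (ha : a ∈ S.K) {v t : L} (hv : v ∈ S.V) (ht : t ∈ S.K) :
    S.psi ((v + t) ^ 3 * S.tau (S.tau (v + t)) + a * (S.tau (v + t) * S.tau (S.tau (v + t))))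
      = S.psi ((1 + a) * t ^ 2) * S.psi (((1 + a) + t ^ 2) * S.e2 v + t * S.P v) := by
  have hta := (mem_K S).1 ha
  have htt := (mem_K S).1 ht
  have h2 := tau_tau_of_mem_V S hv
  have he := e2_mem S hv
  have hP := P_mem S hv
  have h1 : S.psi ((v + t) ^ 3 * S.tau (S.tau (v + t))
        + a * (S.tau (v + t) * S.tau (S.tau (v + t))))
      = S.psi (S.e2 v ^ 2 + t * S.P v + t ^ 2 * S.e2 v + t ^ 4 + a * (S.e2 v + t ^ 2)) := by
    apply psi_eq_of_tr
    have h3 : S.tau (S.e2 v) = S.e2 v := (mem_K S).1 he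
    have h4 : S.tau (S.P v) = S.P v := (mem_K S).1 hP
    simp only [map_add, map_mul, map_pow, h3, h4, hta, htt, h2]
    simp only [Setup.e2, Setup.P]
    linear_combination (norm := (ring_nf; reduce_mod_char!))
  rw [h1]
  have e1 : (1 + a) * t ^ 2 = t ^ 2 + a * t ^ 2 := by ring
  have e2 : ((1 + a) + t ^ 2) * S.e2 v + t * S.P v
      = S.e2 v + a * S.e2 v + t ^ 2 * S.e2 v + t * S.P v := by ring
  have e3 : t ^ 4 = (t ^ 2) ^ 2 := by ring
  have e4 : a * (S.e2 v + t ^ 2) = a * S.e2 v + a * t ^ 2 := by ring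
  rw [e1, e2, e3, e4]
  simp only [S.psi_add, S.psi_sq]
  ring

/-- First evaluation: the exponent `R ^ 2 + 3`. -/
theorem sum_A (hV : (S.V.card : ℤ) = (S.K.card : ℤ) ^ 2) {b : L} (hb : b ^ 3 = b ^ 2 + 1)
    (htau : S.tau b = b ∨ S.tau b = b ^ 2 + b + 1) {a : L} (ha : a ∈ S.K) :
    ∑ y : L, S.psi (y ^ 3 * S.tau (S.tau y) + a * y)
      = if a = 1 then S.psi 1 * (S.K.card : ℤ) ^ 2 else 0 := by
  rw [sum_decomp S]
  have h1 : ∀ v ∈ S.V, ∀ t ∈ S.K, S.psi ((v + t) ^ 3 * S.tau (S.tau (v + t)) + a * (v + t))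
      = S.psi ((1 + a) * t) * S.psi ((1 + t ^ 2) * S.e2 v + t * S.P v) :=
    fun v hv t ht => psi_A S ha hv ht
  rw [Finset.sum_congr rfl (fun v hv => Finset.sum_congr rfl (fun t ht => h1 v hv t ht)),
    Finset.sum_comm]
  have h2 : ∀ t ∈ S.K, ∑ v ∈ S.V, S.psi ((1 + a) * t) * S.psi ((1 + t ^ 2) * S.e2 v + t * S.P v)
      = S.psi ((1 + a) * t) * (S.psi 1 * (S.K.card : ℤ)) := by
    intro t ht
    rw [← Finset.mul_sum, sum_P S hb htau (fun x y => S.psi ((1 + t ^ 2) * x + t * y))]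
    congr 1
    have h3 : ∑ v ∈ S.V, S.psi ((1 + t ^ 2) * S.e2 v + t * S.N v) = S.H (1 + t ^ 2) t := rfl
    rw [h3]
    have h4 : 1 + t ^ 2 ∈ S.K := add_mem_K S (one_mem_K S) (pow_mem_K S ht 2)
    by_cases h0 : t = 0
    · subst h0
      apply H_zero S hV h4
      simp
    · rw [H_ne S hV h4 (Finset.mem_erase.2 ⟨h0, ht⟩)]
      have h5 : t ^ 3 + (1 + t ^ 2) * t + t = 0 := by
        linear_combination (norm := (ring_nf; reduce_mod_char!))
      rw [(cls_root S h4 h0 ht h5).1]; ring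
  rw [Finset.sum_congr rfl h2, ← Finset.sum_mul,
    sum_psi_K S (add_mem_K S (one_mem_K S) ha)]
  have h3 : (1 + a = 0) ↔ (a = 1) := by
    rw [CharTwo.add_eq_zero]; exact eq_comm
  by_cases h : a = 1
  · rw [if_pos h, if_pos (h3.2 h)]; ring
  · rw [if_neg h, if_neg (fun h' => h (h3.1 h'))]; ring

theorem kl_one (b : L) (hb0 : b ≠ 0) (hb : b ∈ S.K) :
    ∑ t ∈ S.K.erase 0, S.psi (b * t ^ 2) * S.psi ((b + t ^ 2) ^ 3 / t ^ 2)
      = S.psi b * S.Kl (b ^ 3) := by
  have h1 : ∀ t ∈ S.K.erase 0, S.psi (b * t ^ 2) * S.psi ((b + t ^ 2) ^ 3 / t ^ 2)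
      = S.psi b * S.psi (t ^ 2 + b ^ 3 / t ^ 2) := by
    intro t ht
    have ht0 := Finset.ne_of_mem_erase ht
    have e1 : (b + t ^ 2) ^ 3 / t ^ 2 = b ^ 3 / t ^ 2 + b ^ 2 + b * t ^ 2 + (t ^ 2) ^ 2 := by
      field_simp
      linear_combination (norm := (ring_nf; reduce_mod_char!))
    rw [e1]
    simp only [S.psi_add, S.psi_sq]
    have h3 : S.psi (b * t ^ 2) * S.psi (b * t ^ 2) = 1 := psi_mul_self S _
    have h4 : S.psi (t ^ 2) = S.psi t := S.psi_sq t
    linear_combination (S.psi (b ^ 3 / t ^ 2) * S.psi b * S.psi t) * h3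
  rw [Finset.sum_congr rfl h1, ← Finset.mul_sum, sum_erase_sq S (fun x => S.psi (x + b ^ 3 / x))]
  rfl

theorem final_psi {a b w t : L} (ha0 : a ≠ 0) (hb0 : b ≠ 0) (hab : a + b = 1) (hw1 : w + 1 ≠ 0)
    (e1 : b * t ^ 2 = a * b + a * b / (w + 1) + (b / a) * ((w + 1) ^ 2 + (w + 1))) :
    S.psi (b * t ^ 2) = S.psi ((b / a ^ 2) * (w + 1) ^ 2
        + b ^ 3 / ((b / a ^ 2) * (w + 1) ^ 2)) := by
  have hba : b = a + 1 := by
    linear_combination (norm := (ring_nf; reduce_mod_char!)) hab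
  have e2 : S.psi (a * b) = 1 := by
    have : a * b = a ^ 2 + a := by rw [hba]; ring
    rw [this, psi_sq_add]
  have e3 : b ^ 3 / ((b / a ^ 2) * (w + 1) ^ 2) = (a * b / (w + 1)) ^ 2 := by
    field_simp
  have e4 : (b / a ^ 2) * (w + 1) ^ 2 = (b / a) * (w + 1) ^ 2 + ((b / a) * (w + 1)) ^ 2 := by
    field_simp
    linear_combination -hab
  rw [e3, e4, e1, mul_add (b / a)]
  simp only [S.psi_add, S.psi_sq]
  rw [e2]; ring

/-- The root-counting sum. -/
theorem kl_two (a : L) (ha : a ∈ S.K) (ha0 : a ≠ 0) (ha1 : a ≠ 1) :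
    ∑ t ∈ S.K.erase 0, S.psi ((1 + a) * t ^ 2) * S.rho ((1 + a) + t ^ 2) t
      = S.Kl ((1 + a) ^ 3) - 2 := by
  set b : L := 1 + a with hb
  have hbK : b ∈ S.K := add_mem_K S (one_mem_K S) ha
  have hb0 : b ≠ 0 := by
    rw [hb]; intro h; exact ha1 (CharTwo.add_eq_zero.1 h).symm
  have hab : a + b = 1 := by
    rw [hb]
    linear_combination (norm := (ring_nf; reduce_mod_char!))
  have hba : b = a + 1 := by rw [hb]; ring
  -- as a sum over pairs
  have h1 : ∑ t ∈ S.K.erase 0, S.psi (b * t ^ 2) * S.rho (b + t ^ 2) t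
      = ∑ p ∈ ((S.K.erase 0) ×ˢ (S.K.erase 0)).filter
          (fun p => p.2 ^ 3 + (b + p.1 ^ 2) * p.2 + p.1 = 0), S.psi (b * p.1 ^ 2) := by
    rw [Finset.sum_filter, Finset.sum_product]
    refine Finset.sum_congr rfl (fun t ht => ?_)
    have ht0 := Finset.ne_of_mem_erase ht
    rw [Setup.rho, Finset.card_filter]
    push_cast
    rw [← Finset.add_sum_erase S.K _ (zero_mem_K S)]
    have h2 : ¬ ((0 : L) ^ 3 + (b + t ^ 2) * 0 + t = 0) := by
      intro h; apply ht0; rw [← h]; ring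
    rw [if_neg h2, zero_add, Finset.mul_sum]
    refine Finset.sum_congr rfl (fun X _ => ?_)
    split_ifs <;> ring
  rw [h1]
  -- the bijection
  have h2 : ∑ p ∈ ((S.K.erase 0) ×ˢ (S.K.erase 0)).filter
          (fun p => p.2 ^ 3 + (b + p.1 ^ 2) * p.2 + p.1 = 0), S.psi (b * p.1 ^ 2)
      = ∑ g ∈ ((S.K.erase 0).erase 1).erase a,
          S.psi ((b / a ^ 2) * g ^ 2 + b ^ 3 / ((b / a ^ 2) * g ^ 2)) := by
    refine Finset.sum_bij (fun p _ => p.1 * p.2 + p.2 ^ 2 + 1) ?_ ?_ ?_ ?_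
    · rintro ⟨t, X⟩ hp
      simp only [Finset.mem_filter, Finset.mem_product, Finset.mem_erase] at hp ⊢
      obtain ⟨⟨⟨ht0, ht⟩, hX0, hX⟩, heq⟩ := hp
      have hw : (t * X + X ^ 2) ^ 2 + (t * X + X ^ 2) = a * X ^ 2 := by
        have : (X ^ 3 + (b + t ^ 2) * X + t) * X = 0 := by rw [heq, zero_mul]
        rw [hba] at this
        linear_combination (norm := (ring_nf; reduce_mod_char!)) this
      have haX : a * X ^ 2 ≠ 0 := mul_ne_zero ha0 (pow_ne_zero 2 hX0)
      refine ⟨?_, ?_, ?_, ?_⟩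
      · intro h
        have hwb : t * X + X ^ 2 = b := by
          rw [hba]
          linear_combination (norm := (ring_nf; reduce_mod_char!)) h
        rw [hwb, hba] at hw
        have h3 : a * (X ^ 2 + b) = 0 := by
          rw [hba]
          linear_combination (norm := (ring_nf; reduce_mod_char!)) hw
        rcases mul_eq_zero.1 h3 with h4 | h4
        · exact ha0 h4
        · have h5 : t * X = 0 := by
            linear_combination (norm := (ring_nf; reduce_mod_char!)) hwb + h4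
          rcases mul_eq_zero.1 h5 with h6 | h6
          · exact ht0 h6
          · exact hX0 h6
      · intro h
        have hw0 : t * X + X ^ 2 = 0 := by
          linear_combination h
        rw [hw0] at hw
        apply haX
        simpa using hw.symm
      · intro h
        have hw0 : t * X + X ^ 2 = 1 := by
          linear_combination (norm := (ring_nf; reduce_mod_char!)) h
        rw [hw0] at hw
        apply haX
        rw [← hw]
        linear_combination (norm := (ring_nf; reduce_mod_char!))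
      · exact add_mem_K S (add_mem_K S (mul_mem_K S ht hX) (pow_mem_K S hX 2)) (one_mem_K S)
    · rintro ⟨t, X⟩ hp ⟨t', X'⟩ hp' h
      simp only [Finset.mem_filter, Finset.mem_product, Finset.mem_erase] at hp hp'
      obtain ⟨⟨⟨ht0, ht⟩, hX0, hX⟩, heq⟩ := hp
      obtain ⟨⟨⟨ht0', ht'⟩, hX0', hX'⟩, heq'⟩ := hp'
      have hw : (t * X + X ^ 2) ^ 2 + (t * X + X ^ 2) = a * X ^ 2 := by
        have : (X ^ 3 + (b + t ^ 2) * X + t) * X = 0 := by rw [heq, zero_mul]
        rw [hba] at this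
        linear_combination (norm := (ring_nf; reduce_mod_char!)) this
      have hw' : (t' * X' + X' ^ 2) ^ 2 + (t' * X' + X' ^ 2) = a * X' ^ 2 := by
        have : (X' ^ 3 + (b + t' ^ 2) * X' + t') * X' = 0 := by rw [heq', zero_mul]
        rw [hba] at this
        linear_combination (norm := (ring_nf; reduce_mod_char!)) this
      have hww : t * X + X ^ 2 = t' * X' + X' ^ 2 := by
        have h' : t * X + X ^ 2 + 1 = t' * X' + X' ^ 2 + 1 := h
        exact add_right_cancel h'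
      have hXX : X = X' := by
        rw [hww, hw'] at hw
        have h3 := mul_left_cancel₀ ha0 hw
        have h4 : (X' + X) ^ 2 = 0 := by
          linear_combination (norm := (ring_nf; reduce_mod_char!)) h3
        exact (CharTwo.add_eq_zero.1 (pow_eq_zero_iff two_ne_zero |>.1 h4)).symm
      subst hXX
      have : t * X = t' * X := add_right_cancel hww
      rw [mul_right_cancel₀ hX0 this]
    · intro g hg
      simp only [Finset.mem_erase] at hg
      obtain ⟨hga, hg1, hg0, hgK⟩ := hg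
      have hm : (g ^ 2 + g) / a ∈ S.K :=
        div_mem_K S (add_mem_K S (pow_mem_K S hgK 2) hgK) ha
      obtain ⟨X, hX, hX2⟩ := exists_sqrt S hm
      have haX : a * X ^ 2 = g ^ 2 + g := by rw [hX2]; field_simp
      have hgg : g ^ 2 + g ≠ 0 := by
        intro h
        have h' : g * (g + 1) = 0 := by rw [← h]; ring
        rcases mul_eq_zero.1 h' with h3 | h3
        · exact hg0 h3
        · exact hg1 (CharTwo.add_eq_zero.1 h3)
      have hX0 : X ≠ 0 := by
        rintro rfl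
        apply hgg
        rw [← haX]; ring
      refine ⟨((g + 1 + X ^ 2) / X, X), ?_, ?_⟩
      · simp only [Finset.mem_filter, Finset.mem_product, Finset.mem_erase]
        refine ⟨⟨⟨?_, ?_⟩, hX0, hX⟩, ?_⟩
        · intro h
          have h3 : g + 1 + X ^ 2 = 0 := by
            rcases div_eq_zero_iff.1 h with h4 | h4
            · exact h4
            · exact absurd h4 hX0
          have h4 : (g + 1) * (g + a) = 0 := by
            linear_combination (norm := (ring_nf; reduce_mod_char!)) a * h3 + haX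
          rcases mul_eq_zero.1 h4 with h5 | h5
          · exact hg1 (CharTwo.add_eq_zero.1 h5)
          · exact hga (CharTwo.add_eq_zero.1 h5)
        · exact div_mem_K S (add_mem_K S (add_mem_K S hgK (one_mem_K S)) (pow_mem_K S hX 2)) hX
        · field_simp
          rw [hba]
          linear_combination (norm := (ring_nf; reduce_mod_char!)) haX
      · show (g + 1 + X ^ 2) / X * X + X ^ 2 + 1 = g
        rw [div_mul_cancel₀ _ hX0]
        linear_combination (norm := (ring_nf; reduce_mod_char!))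
    · rintro ⟨t, X⟩ hp
      simp only [Finset.mem_filter, Finset.mem_product, Finset.mem_erase] at hp
      obtain ⟨⟨⟨ht0, ht⟩, hX0, hX⟩, heq⟩ := hp
      have hw : (t * X + X ^ 2) ^ 2 + (t * X + X ^ 2) = a * X ^ 2 := by
        have : (X ^ 3 + (b + t ^ 2) * X + t) * X = 0 := by rw [heq, zero_mul]
        rw [hba] at this
        linear_combination (norm := (ring_nf; reduce_mod_char!)) this
      show S.psi (b * t ^ 2) = S.psi ((b / a ^ 2) * (t * X + X ^ 2 + 1) ^ 2
        + b ^ 3 / ((b / a ^ 2) * (t * X + X ^ 2 + 1) ^ 2))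
      set w := t * X + X ^ 2 with hwdef
      have hw1 : w + 1 ≠ 0 := by
        intro h
        have : a * X ^ 2 = 0 := by rw [← hw]; linear_combination w * h
        exact mul_ne_zero ha0 (pow_ne_zero 2 hX0) this
      have hw0 : w ≠ 0 := by
        intro h
        have : a * X ^ 2 = 0 := by rw [← hw, h]; ring
        exact mul_ne_zero ha0 (pow_ne_zero 2 hX0) this
      have hX2 : X ^ 2 = (w ^ 2 + w) / a := by rw [hw]; field_simp
      have ht2 : t ^ 2 = (w ^ 2 + (X ^ 2) ^ 2) / X ^ 2 := by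
        rw [eq_div_iff (pow_ne_zero 2 hX0)]
        have : t ^ 2 * X ^ 2 = (w + X ^ 2) ^ 2 := by
          rw [← mul_pow, hwdef]
          congr 1
          linear_combination (norm := (ring_nf; reduce_mod_char!))
        rw [this]
        linear_combination (norm := (ring_nf; reduce_mod_char!))
      have hww : w ^ 2 + w ≠ 0 := by
        rw [hw]; exact mul_ne_zero ha0 (pow_ne_zero 2 hX0)
      -- b t^2 = a b + a b / g + (b / a) (g^2 + g) with g = w + 1
      have e1 : b * t ^ 2 = a * b + a * b / (w + 1) + (b / a) * ((w + 1) ^ 2 + (w + 1)) := by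
        rw [ht2, hX2]
        have hq : w ^ 2 + w = w * (w + 1) := by ring
        rw [hq]
        field_simp
        linear_combination (norm := (ring_nf; reduce_mod_char!))
      have hwK : w ∈ S.K := add_mem_K S (mul_mem_K S ht hX) (pow_mem_K S hX 2)
      exact final_psi S ha0 hb0 hab hw1 e1
  rw [h2]
  set f : L → ℤ := fun g => S.psi ((b / a ^ 2) * g ^ 2 + b ^ 3 / ((b / a ^ 2) * g ^ 2)) with hf
  have hone : (1 : L) ∈ S.K.erase 0 := Finset.mem_erase.2 ⟨one_ne_zero, one_mem_K S⟩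
  have haa : a ∈ (S.K.erase 0).erase 1 :=
    Finset.mem_erase.2 ⟨ha1, Finset.mem_erase.2 ⟨ha0, ha⟩⟩
  have h3 : ∑ g ∈ S.K.erase 0, f g = f 1 + (f a + ∑ g ∈ ((S.K.erase 0).erase 1).erase a, f g) := by
    rw [Finset.add_sum_erase _ _ haa, Finset.add_sum_erase _ _ hone]
  have hf1 : f 1 = 1 := by
    have e5 : b / a ^ 2 = (b / a) ^ 2 + b / a := by
      have : (b / a) ^ 2 + b / a = b * (a + b) / a ^ 2 := by
        field_simp
        ring
      rw [this, hab, mul_one]
    have e6 : b ^ 3 / ((b / a ^ 2) * 1 ^ 2) = (a * b) ^ 2 := by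
      field_simp
    have e7 : a * b = a ^ 2 + a := by rw [hba]; ring
    simp only [hf]
    rw [e6, one_pow, mul_one, S.psi_add, S.psi_sq, e5, psi_sq_add, e7, psi_sq_add]
    norm_num
  have hfa : f a = 1 := by
    have e1 : (b / a ^ 2) * a ^ 2 + b ^ 3 / ((b / a ^ 2) * a ^ 2) = b ^ 2 + b := by
      field_simp
      ring
    simp only [hf]
    rw [e1, psi_sq_add]
  have h4 : ∑ g ∈ S.K.erase 0, f g = S.Kl (b ^ 3) := by
    have hc0 : b / a ^ 2 ≠ 0 := div_ne_zero hb0 (pow_ne_zero 2 ha0)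
    have hcK : b / a ^ 2 ∈ S.K := div_mem_K S hbK (pow_mem_K S ha 2)
    have h5 := sum_erase_sq S (fun x => S.psi ((b / a ^ 2) * x + b ^ 3 / ((b / a ^ 2) * x)))
    simp only [hf]
    rw [h5, Setup.Kl]
    refine Finset.sum_bij (fun x _ => (b / a ^ 2) * x) ?_ ?_ ?_ ?_
    · intro x hx
      rw [Finset.mem_erase] at hx ⊢
      exact ⟨mul_ne_zero hc0 hx.1, mul_mem_K S hcK hx.2⟩
    · intro x _ y _ h; exact mul_left_cancel₀ hc0 h
    · intro y hy
      rw [Finset.mem_erase] at hy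
      refine ⟨y / (b / a ^ 2), ?_, mul_div_cancel₀ _ hc0⟩
      rw [Finset.mem_erase]
      exact ⟨div_ne_zero hy.1 hc0, div_mem_K S hy.2 hcK⟩
    · intro x _; rfl
  rw [h4, hf1, hfa] at h3
  linarith

/-- Second evaluation: the exponent `R ^ 2 + 2 R - 1`, in terms of a Kloosterman sum. -/
theorem sum_B (hV : (S.V.card : ℤ) = (S.K.card : ℤ) ^ 2) {b : L} (hb : b ^ 3 = b ^ 2 + 1)
    (htau : S.tau b = b ∨ S.tau b = b ^ 2 + b + 1) {a : L} (ha : a ∈ S.K) (ha1 : a ≠ 1) :
    ∑ y : L, S.psi (y ^ 3 * S.tau (S.tau y) + a * (S.tau y * S.tau (S.tau y)))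
      = S.psi 1 * (S.K.card : ℤ) * (1 - S.psi a) * S.Kl ((1 + a) ^ 3) := by
  by_cases ha0 : a = 0
  · subst ha0
    have h := sum_A S hV hb htau (zero_mem_K S)
    rw [if_neg zero_ne_one] at h
    simp only [zero_mul, add_zero] at h ⊢
    rw [h, psi_zero]; ring
  have hbK : 1 + a ∈ S.K := add_mem_K S (one_mem_K S) ha
  have hb0 : 1 + a ≠ 0 := by
    intro h; exact ha1 (CharTwo.add_eq_zero.1 h).symm
  rw [sum_decomp S]
  have h1 : ∀ v ∈ S.V, ∀ t ∈ S.K, S.psi ((v + t) ^ 3 * S.tau (S.tau (v + t))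
        + a * (S.tau (v + t) * S.tau (S.tau (v + t))))
      = S.psi ((1 + a) * t ^ 2) * S.psi (((1 + a) + t ^ 2) * S.e2 v + t * S.P v) :=
    fun v hv t ht => psi_B S ha hv ht
  rw [Finset.sum_congr rfl (fun v hv => Finset.sum_congr rfl (fun t ht => h1 v hv t ht)),
    Finset.sum_comm]
  have h2 : ∀ t ∈ S.K, ∑ v ∈ S.V,
        S.psi ((1 + a) * t ^ 2) * S.psi (((1 + a) + t ^ 2) * S.e2 v + t * S.P v)
      = S.psi ((1 + a) * t ^ 2) * S.H ((1 + a) + t ^ 2) t := by
    intro t _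
    rw [← Finset.mul_sum, sum_P S hb htau (fun x y => S.psi (((1 + a) + t ^ 2) * x + t * y))]
    rfl
  rw [Finset.sum_congr rfl h2]
  have h3 : ∀ t ∈ S.K.erase 0, S.psi ((1 + a) * t ^ 2) * S.H ((1 + a) + t ^ 2) t
      = S.psi 1 * (S.K.card : ℤ) * S.psi ((1 + a) * t ^ 2)
        - S.psi 1 * (S.K.card : ℤ) * (2 * S.psi ((1 + a) * t ^ 2)
          - S.psi ((1 + a) * t ^ 2) * S.rho ((1 + a) + t ^ 2) t
          + S.psi 1 * (S.psi ((1 + a) * t ^ 2) * S.psi (((1 + a) + t ^ 2) ^ 3 / t ^ 2))) := by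
    intro t ht
    have h4 : (1 + a) + t ^ 2 ∈ S.K := add_mem_K S hbK (pow_mem_K S (Finset.mem_of_mem_erase ht) 2)
    rw [H_ne S hV h4 ht, cls S hV h4 ht]; ring
  have h5 : S.psi ((1 + a) * 0 ^ 2) * S.H ((1 + a) + 0 ^ 2) 0 = S.psi 1 * (S.K.card : ℤ) := by
    have e1 : (1 + a) * (0 : L) ^ 2 = 0 := by ring
    have e2 : (1 + a) + (0 : L) ^ 2 = 1 + a := by ring
    rw [e1, e2, psi_zero, H_zero S hV hbK hb0, one_mul]
  rw [sum_K_split S, h5, Finset.sum_congr rfl h3]
  simp only [Finset.sum_add_distrib, Finset.sum_sub_distrib, ← Finset.mul_sum]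
  rw [kl_one S (1 + a) hb0 hbK, kl_two S a ha ha0 ha1,
    sum_erase_sq S (fun x => S.psi ((1 + a) * x)), sum_psi_erase S hbK, if_neg hb0,
    S.psi_add 1 a]
  have h6 := psi_mul_self S 1
  linear_combination (-(S.psi 1 * (S.K.card : ℤ) * S.psi a * S.Kl ((1 + a) ^ 3))) * h6

end Pool.Agent.Lib.HV
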